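import Pool.Agent.CTW.St

/-!
Basic lemmas on `Fn`, `Val`, `InDom`, `SubVal`, codes of finite functions, lengths of words.
-/

set_option autoImplicit false

namespace Pool.Agent.CTW

open RT22P RT22P.Env

variable {M : Type} [Env M] {Γ Δ : Type} [Enc M Γ] [Enc M Δ]

@[fun_prop] theorem comp_prF (f g : Γ → M) (hf : Comp M f) (hg : Comp M g) :
    Comp M (fun v => pr (f v) (g v)) := by
  unfold pr
  fun_prop

theorem le_pr1 (x y : M) : x ≤ pr x y := le_add_self

theorem le_pr2 (x y : M) : y ≤ pr x y := by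
  have h1 : ∀ s : M, s ≤ s * s := by
    intro s
    rcases eq_or_lt_of_le (zero_le' s) with h | h
    · rw [← h, zero_mul]
    · have h2 := Arith.succ_le h
      rw [zero_add] at h2
      calc s = s * 1 := (mul_one s).symm
        _ ≤ s * s := mul_le_mul' le_rfl h2
  calc y ≤ x + y := le_add_self
    _ ≤ (x + y) * (x + y) := h1 _
    _ ≤ (x + y) * (x + y) + x := le_self_add
    _ = pr x y := rfl

theorem pr_mono {x y x' y' : M} (hx : x ≤ x') (hy : y ≤ y') : pr x y ≤ pr x' y' := by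
  unfold pr
  exact add_le_add (mul_le_mul' (add_le_add hx hy) (add_le_add hx hy)) hx

theorem fn_iff {f : M → M} : Fn (Arith.S (M := M)) f ↔ Comp M f := by
  constructor
  · intro h
    apply comp_of_graph
    refine sig_of_comp ?_
    have h1 : Comp M (fun q : M × M => pr q.1 q.2 ∈ {z | ∃ x, z = pr x (f x)}) :=
      comp_mem h (fun q : M × M => pr q.1 q.2) (by fun_prop)
    have e : (fun q : M × M => q.2 = f q.1) =
        (fun q : M × M => pr q.1 q.2 ∈ {z | ∃ x, z = pr x (f x)}) := by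
      funext q
      refine propext ⟨fun h2 => ⟨q.1, by rw [h2]⟩, fun ⟨x, hx⟩ => ?_⟩
      obtain ⟨h2, h3⟩ := pr_inj hx
      rw [h3, h2]
    rw [e]
    exact h1
  · intro h
    have e : {z | ∃ x, z = pr x (f x)} = {z : M | ∃ x, x ≤ z ∧ z = pr x (f x)} := by
      ext z
      exact ⟨fun ⟨x, hx⟩ => ⟨x, by rw [hx]; exact le_pr1 _ _, hx⟩, fun ⟨x, _, hx⟩ => ⟨x, hx⟩⟩
    show {z | ∃ x, z = pr x (f x)} ∈ Arith.S (M := M)
    rw [e]
    exact Env0.c_set (P := fun z : M => ∃ x, x ≤ z ∧ z = pr x (f x))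
      (comp_bexle (fun z : M => z) (fun z x => z = pr x (f x)) (by fun_prop) (by fun_prop))

@[fun_prop] theorem comp_Val (f g h : Γ → M) (hf : Comp M f) (hg : Comp M g) (hh : Comp M h) :
    Comp M (fun v => Val el (f v) (g v) (h v)) := by
  unfold Val
  fun_prop

theorem val_lt {a i u : M} (h : Val el a i u) : i < a ∧ u < a :=
  ⟨lt_of_le_of_lt (le_pr1 i u) (el_lt h), lt_of_le_of_lt (le_pr2 i u) (el_lt h)⟩

theorem inDom_iff {a i : M} : InDom el a i ↔ ∃ u, u < a ∧ Val el a i u :=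
  ⟨fun ⟨u, hu⟩ => ⟨u, (val_lt hu).2, hu⟩, fun ⟨u, _, hu⟩ => ⟨u, hu⟩⟩

theorem inDom_lt {a i : M} (h : InDom el a i) : i < a := (val_lt h.choose_spec).1

@[fun_prop] theorem comp_InDom (f g : Γ → M) (hf : Comp M f) (hg : Comp M g) :
    Comp M (fun v => InDom el (f v) (g v)) := by
  have e : (fun v => InDom el (f v) (g v)) = fun v => ∃ u, u < f v ∧ Val el (f v) (g v) u := by
    funext v
    exact propext inDom_iff
  rw [e]
  fun_prop

@[fun_prop] theorem comp_SubVal (k a b i u : Γ → M) (hk : Comp M k) (ha : Comp M a)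
    (hb : Comp M b) (hi : Comp M i) (hu : Comp M u) :
    Comp M (fun v => SubVal el (k v) (a v) (b v) (i v) (u v)) := by
  unfold SubVal
  fun_prop

/-- a letter of `a[b]` is a letter, if `b` is -/
theorem subVal_lt {k a b i u : M} (hb : b < k) (h : SubVal el k a b i u) : u < k := by
  rcases h with h | h
  · exact h.1
  · rw [h.1]; exact hb

theorem subVal_dom {k a b i u : M} (h : SubVal el k a b i u) : InDom el a i := by
  rcases h with h | h
  · exact ⟨u, h.2⟩
  · exact ⟨k, h.2⟩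

theorem subVal_fn {k k' a b i u v : M} (ha : LocWord el k' a) (hu : SubVal el k a b i u)
    (hv : SubVal el k a b i v) : u = v := by
  rcases hu with hu | hu <;> rcases hv with hv | hv
  · exact ha.fn _ _ _ hu.2 hv.2
  · exact absurd (ha.fn _ _ _ hu.2 hv.2) (ne_of_lt hu.1)
  · exact absurd (ha.fn _ _ _ hv.2 hu.2) (ne_of_lt hv.1)
  · rw [hu.1, hv.1]

/-- every letter of the variable word `a` gives a letter of `a[b]` -/
theorem subVal_ex {k a i : M} (b : M) (ha : LocWord el (k + 1) a) (h : InDom el a i) :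
    ∃ u, SubVal el k a b i u := by
  obtain ⟨v, hv⟩ := h
  obtain ⟨i', u', h1, h2⟩ := ha.cod _ hv
  obtain ⟨-, rfl⟩ := pr_inj h1
  rcases lt_or_eq_of_le (lt_succ.1 h2) with h3 | h3
  · exact ⟨v, Or.inl ⟨h3, hv⟩⟩
  · rw [h3] at hv
    exact ⟨b, Or.inr ⟨rfl, hv⟩⟩

theorem loc_val_lt {k a i u : M} (ha : LocWord el k a) (h : Val el a i u) : u < k := by
  obtain ⟨i', u', h1, h2⟩ := ha.cod _ h
  obtain ⟨-, rfl⟩ := pr_inj h1
  exact h2

/-- extensionality -/
theorem loc_ext {k k' a b : M} (ha : LocWord el k a) (hb : LocWord el k' b)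
    (h : ∀ i u, Val el a i u ↔ Val el b i u) : a = b := by
  refine fext fun x => ⟨fun hx => ?_, fun hx => ?_⟩
  · obtain ⟨i, u, rfl, -⟩ := ha.cod x hx
    exact (h i u).1 hx
  · obtain ⟨i, u, rfl, -⟩ := hb.cod x hx
    exact (h i u).2 hx

/-- codes of finite sets of pairs, with bounds -/
theorem exists_pf {R : Γ → M → M → Prop} (hR : Comp M (fun q : (Γ × M) × M => R q.1.1 q.1.2 q.2))
    {b k : Γ → M} (hb : Comp M b) (hk : Comp M k) : ∃ F : Γ → M, Comp M F ∧
    ∀ v, (∀ x, el x (F v) → ∃ i u, x = pr i u ∧ u < k v) ∧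
      ∀ i u, Val el (F v) i u ↔ i < b v ∧ u < k v ∧ R v i u := by
  obtain ⟨F, hF, hF'⟩ := c_code (M := M) (Γ := Γ) (b := fun v => pr (b v) (k v) + 1)
    (P := fun q : Γ × M => ∃ i, i < b q.1 ∧ ∃ u, u < k q.1 ∧ (q.2 = pr i u ∧ R q.1 i u))
    (by fun_prop) (by
      refine comp_bex (fun q : Γ × M => b q.1)
        (fun q i => ∃ u, u < k q.1 ∧ (q.2 = pr i u ∧ R q.1 i u)) (by fun_prop) ?_
      refine comp_bex (fun q : (Γ × M) × M => k q.1.1)
        (fun q u => q.1.2 = pr q.2 u ∧ R q.1.1 q.2 u) (by fun_prop) ?_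
      refine comp_and _ _ (by fun_prop) ?_
      exact comp_comp (fun q : (Γ × M) × M => R q.1.1 q.1.2 q.2)
        (fun q : ((Γ × M) × M) × M => ((q.1.1.1, q.1.2), q.2)) hR (by fun_prop))
  refine ⟨F, hF, fun v => ⟨fun x hx => ?_, fun i u => ⟨fun h => ?_, fun h => ?_⟩⟩⟩
  · obtain ⟨-, i, -, u, hu, h1, -⟩ := (hF' v x).1 hx
    exact ⟨i, u, h1, hu⟩
  · obtain ⟨-, i', hi, u', hu, h1, h2⟩ := (hF' v _).1 h
    obtain ⟨rfl, rfl⟩ := pr_inj h1
    exact ⟨hi, hu, h2⟩
  · refine (hF' v _).2 ⟨?_, i, h.1, u, h.2.1, rfl, h.2.2⟩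
    exact lt_succ.2 (pr_mono h.1.le h.2.1.le)

/-- a located word from a functional relation with a nonempty domain -/
theorem loc_of {k a : M} (h1 : ∀ x, el x a → ∃ i u, x = pr i u ∧ u < k)
    (h2 : ∀ i u v, Val el a i u → Val el a i v → u = v) (h3 : ∃ i, InDom el a i) :
    LocWord el k a := ⟨h1, h2, h3⟩

/-- the length of a word -/
theorem exists_len (M : Type) [Env M] : ∃ len : M → M, Comp M len ∧
    ∀ k l a : M, Word el k l a → len a = l := by
  obtain ⟨f, hf, h⟩ := search_min (M := M) (Γ := M) (P := fun a t => ¬ InDom el a t)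
    (by fun_prop) (fun a => ⟨a, fun h => lt_irrefl a (inDom_lt h)⟩)
  refine ⟨f, hf, fun k l a ha => le_antisymm ?_ ?_⟩
  · by_contra hc
    have h1 := (h a).2 l (not_le.1 hc)
    exact h1 fun h2 => lt_irrefl l ((ha.2 l).1 h2)
  · by_contra hc
    exact (h a).1 ((ha.2 _).2 (not_le.1 hc))

theorem word_pos {k l a : M} (h : Word el k l a) : 0 < l := by
  obtain ⟨i, hi⟩ := h.1.ne
  exact lt_of_le_of_lt (zero_le' i) ((h.2 i).1 hi)

theorem el_val {a i u : M} : Val el a i u ↔ el (pr i u) a := Iff.rfl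

end Pool.Agent.CTW
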