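import Pool.Agent.CTW.Bas

/-!
Module BCK: Carlson's theorem for located words implies Carlson's theorem for words.
-/

set_option autoImplicit false

namespace Pool.Agent.CTW

open RT22P RT22P.Env

namespace Bckx

theorem exists_cnt (M : Type) [Env M] : ∃ F : M → M → M, Comp M (fun q : M × M => F q.1 q.2) ∧
    (∀ e, F e 0 = 0) ∧ (∀ e i, InDom el e i → F e (i + 1) = F e i + 1) ∧
    ∀ e i, ¬ InDom el e i → F e (i + 1) = F e i := by
  classical
  obtain ⟨F, hF, h0, h1⟩ := prec (M := M) (Γ := M) (Δ := M) (g := fun _ => 0)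
    (h := fun e i x => if InDom el e i then x + 1 else x) (by fun_prop)
    (comp_ite (P := fun q : M × M × M => InDom el q.1 q.2.1) (by fun_prop) (by fun_prop)
      (by fun_prop))
  refine ⟨F, hF, h0, fun e i h => ?_, fun e i h => ?_⟩
  · rw [h1, if_pos h]
  · rw [h1, if_neg h]

/-- number of elements of the domain of `e` below `i` -/
noncomputable def cnt {M : Type} [Env M] (e i : M) : M := (exists_cnt M).choose e i

variable {M : Type} [Env M] {Γ : Type} [Enc M Γ]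

@[fun_prop] theorem comp_cnt (f g : Γ → M) (hf : Comp M f) (hg : Comp M g) :
    Comp M (fun x => cnt (f x) (g x)) :=
  Env0.c_comp (f := fun q : M × M => cnt q.1 q.2) (exists_cnt M).choose_spec.1
    (Env0.c_prod hf hg)

theorem cnt_zero (e : M) : cnt e 0 = 0 := (exists_cnt M).choose_spec.2.1 e

theorem cnt_succ {e i : M} (h : InDom el e i) : cnt e (i + 1) = cnt e i + 1 :=
  (exists_cnt M).choose_spec.2.2.1 e i h

theorem cnt_succ' {e i : M} (h : ¬ InDom el e i) : cnt e (i + 1) = cnt e i :=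
  (exists_cnt M).choose_spec.2.2.2 e i h

theorem cnt_step (e i : M) : cnt e i ≤ cnt e (i + 1) := by
  by_cases h : InDom el e i
  · rw [cnt_succ h]
    exact (lt_self_succ _).le
  · rw [cnt_succ' h]

theorem cnt_mono {e i j : M} (h : i ≤ j) : cnt e i ≤ cnt e j := by
  obtain ⟨x, rfl⟩ := le_iff_exists_add.1 h
  refine cind (P := fun x => cnt e i ≤ cnt e (i + x)) (by fun_prop) ?_ ?_ x
  · rw [add_zero]
  · intro x hx
    rw [← add_assoc]
    exact hx.trans (cnt_step _ _)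

theorem cnt_lt {e i j : M} (hi : InDom el e i) (h : i < j) : cnt e i < cnt e j := by
  refine lt_of_lt_of_le ?_ (cnt_mono (succ_le_iff.2 h))
  rw [cnt_succ hi]
  exact lt_self_succ _

theorem cnt_inj {e i j : M} (hi : InDom el e i) (hj : InDom el e j) (h : cnt e i = cnt e j) :
    i = j := by
  rcases lt_trichotomy i j with h1 | h1 | h1
  · exact absurd h (ne_of_lt (cnt_lt hi h1))
  · exact h1
  · exact absurd h (ne_of_gt (cnt_lt hj h1))

theorem cnt_const {e a b : M} (h : ∀ i, InDom el e i → i < a) (hab : a ≤ b) :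
    cnt e b = cnt e a := by
  obtain ⟨x, rfl⟩ := le_iff_exists_add.1 hab
  refine cind (P := fun x => cnt e (a + x) = cnt e a) (by fun_prop) ?_ ?_ x
  · rw [add_zero]
  · intro x hx
    rw [← add_assoc, cnt_succ', hx]
    intro h1
    exact absurd (h _ h1) (not_lt.2 le_self_add)

theorem cnt_top {e a : M} (h : ∀ i, InDom el e i → i < a) : cnt e a = cnt e e := by
  rcases le_total a e with h1 | h1
  · exact (cnt_const h h1).symm
  · exact cnt_const (fun i hi => inDom_lt hi) h1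

theorem cnt_low {e a : M} (h : ∀ i, i < a → ¬ InDom el e i) : cnt e a = 0 := by
  refine (cind (P := fun x => x ≤ a → cnt e x = 0) (by fun_prop) ?_ ?_ a) le_rfl
  · intro _
    exact cnt_zero e
  · intro x hx h1
    have h2 : x < a := succ_le_iff.1 h1
    rw [cnt_succ' (h x h2), hx h2.le]

theorem cnt_ex {e t x : M} (h : t < cnt e x) : ∃ i, i < x ∧ (InDom el e i ∧ cnt e i = t) := by
  revert h
  refine cind (P := fun x => t < cnt e x → ∃ i, i < x ∧ (InDom el e i ∧ cnt e i = t))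
    (by fun_prop) ?_ ?_ x
  · intro h
    rw [cnt_zero] at h
    exact absurd h (not_lt_zero' _)
  · intro x hx h
    by_cases h1 : InDom el e x
    · rw [cnt_succ h1] at h
      rcases lt_or_eq_of_le (lt_succ.1 h) with h2 | h2
      · obtain ⟨i, h3, h4⟩ := hx h2
        exact ⟨i, lt_trans h3 (lt_self_succ x), h4⟩
      · exact ⟨x, lt_self_succ x, h1, h2.symm⟩
    · rw [cnt_succ' h1] at h
      obtain ⟨i, h3, h4⟩ := hx h
      exact ⟨i, lt_trans h3 (lt_self_succ x), h4⟩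

theorem exists_om (M : Type) [Env M] : ∃ F : M → M, Comp M F ∧
    (∀ e x, el x (F e) → ∃ i u, x = pr i u ∧ u < e) ∧
    ∀ e t u, Val el (F e) t u ↔ ∃ i, Val el e i u ∧ cnt e i = t := by
  obtain ⟨F, hF, h⟩ := exists_pf (M := M) (Γ := M)
    (R := fun e t u => ∃ i, i < e ∧ (Val el e i u ∧ cnt e i = t))
    (by fun_prop) (b := fun e => cnt e e) (k := fun e => e) (by fun_prop) (by fun_prop)
  refine ⟨F, hF, fun e x hx => (h e).1 x hx, fun e t u => ?_⟩
  rw [(h e).2]
  constructor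
  · rintro ⟨-, -, i, -, h1⟩
    exact ⟨i, h1⟩
  · rintro ⟨i, h1, h2⟩
    refine ⟨?_, (val_lt h1).2, i, (val_lt h1).1, h1, h2⟩
    rw [← h2]
    exact cnt_lt ⟨u, h1⟩ (val_lt h1).1

/-- the word of a located word -/
noncomputable def om {M : Type} [Env M] (e : M) : M := (exists_om M).choose e

@[fun_prop] theorem comp_om (f : Γ → M) (hf : Comp M f) : Comp M (fun x => om (f x)) :=
  Env0.c_comp (f := fun q : M => om q) (exists_om M).choose_spec.1 hf

theorem om_val {e t u : M} : Val el (om e) t u ↔ ∃ i, Val el e i u ∧ cnt e i = t :=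
  (exists_om M).choose_spec.2.2 e t u

theorem om_word {k e : M} (he : LocWord el k e) : Word el k (cnt e e) (om e) := by
  refine ⟨⟨?_, ?_, ?_⟩, fun t => ⟨?_, fun ht => ?_⟩⟩
  · intro x hx
    obtain ⟨i, u, rfl, -⟩ := (exists_om M).choose_spec.2.1 e x hx
    obtain ⟨i', h1, -⟩ := om_val.1 hx
    exact ⟨i, u, rfl, loc_val_lt he h1⟩
  · intro t u v hu hv
    obtain ⟨i, h1, h2⟩ := om_val.1 hu
    obtain ⟨j, h3, h4⟩ := om_val.1 hv
    have h5 := cnt_inj ⟨u, h1⟩ ⟨v, h3⟩ (h2.trans h4.symm)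
    subst h5
    exact he.fn _ _ _ h1 h3
  · obtain ⟨i, u, hu⟩ := he.ne
    exact ⟨cnt e i, u, om_val.2 ⟨i, hu, rfl⟩⟩
  · rintro ⟨u, hu⟩
    obtain ⟨i, h1, h2⟩ := om_val.1 hu
    rw [← h2]
    exact cnt_lt ⟨u, h1⟩ (val_lt h1).1
  · obtain ⟨i, -, ⟨u, hu⟩, h2⟩ := cnt_ex ht
    exact ⟨u, om_val.2 ⟨i, hu, h2⟩⟩

theorem om_sub {k e b t u : M} : SubVal el k (om e) b t u ↔
    ∃ i, SubVal el k e b i u ∧ cnt e i = t := by
  unfold SubVal
  rw [om_val, om_val]
  constructor
  · rintro (⟨h1, i, h2, h3⟩ | ⟨h1, i, h2, h3⟩)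
    · exact ⟨i, Or.inl ⟨h1, h2⟩, h3⟩
    · exact ⟨i, Or.inr ⟨h1, h2⟩, h3⟩
  · rintro ⟨i, ⟨h1, h2⟩ | ⟨h1, h2⟩, h3⟩
    · exact Or.inl ⟨h1, i, h2, h3⟩
    · exact Or.inr ⟨h1, i, h2, h3⟩

end Bckx

open Bckx

theorem thm_Bck : St_Bck := by
  intro M _ k c H f hf hfc
  have hf' : Comp M f := fn_iff.1 hf
  obtain ⟨y, hy, hvar, hblk, d, hd⟩ := H (fun e => f (om e)) (fn_iff.2 (by fun_prop))
    (fun a => hfc _)
  have hy' : Comp M y := fn_iff.1 hy
  refine ⟨fun n => om (y n), fun n => cnt (y n) (y n), fn_iff.2 (by fun_prop),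
    fn_iff.2 (by fun_prop), fun n => ⟨om_word (hvar n).1, ?_⟩, d, ?_⟩
  · obtain ⟨i, hi⟩ := (hvar n).2
    exact ⟨cnt (y n) i, om_val.2 ⟨i, hi, rfl⟩⟩
  intro g W hg hW
  obtain ⟨⟨L, hL⟩, s, hs, hs0, hs1, hsW⟩ := hW
  have hs' : Comp M s := fn_iff.1 hs
  -- least elements of the domains
  obtain ⟨Hm, hHm, hH⟩ := search_min (M := M) (Γ := M) (P := fun n i => InDom el (y n) i)
    (by fun_prop) (fun n => (hvar n).1.ne)
  have hHle : ∀ n i, InDom el (y n) i → Hm n ≤ i := by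
    intro n i hi
    by_contra hc
    exact (hH n).2 i (not_le.1 hc) hi
  have hHlt : ∀ m n i, m < n → InDom el (y m) i → i < Hm n := by
    intro m n i hmn hi
    exact hblk m n i _ hmn hi (hH n).1
  have hdis : ∀ m n i, InDom el (y m) i → InDom el (y n) i → m = n := by
    intro m n i h1 h2
    rcases lt_trichotomy m n with h | h | h
    · exact absurd (hblk m n i i h h1 h2) (lt_irrefl _)
    · exact h
    · exact absurd (hblk n m i i h h2 h1) (lt_irrefl _)
  -- the located word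
  obtain ⟨F, -, hF⟩ := exists_pf (M := M) (Γ := M)
    (R := fun _ i u => ∃ n, n < g ∧ ∃ b, b < g ∧ (Val el g n b ∧ SubVal el k (y n) b i u))
    (by fun_prop) (b := fun _ => Hm g) (k := fun _ => k) (by fun_prop) (by fun_prop)
  obtain ⟨hF1, hF2⟩ := hF 0
  set W' := F 0 with hW'
  have hV : ∀ i u, Val el W' i u ↔ ∃ n b, Val el g n b ∧ SubVal el k (y n) b i u := by
    intro i u
    rw [hF2]
    constructor
    · rintro ⟨-, -, n, -, b, -, h1, h2⟩
      exact ⟨n, b, h1, h2⟩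
    · rintro ⟨n, b, h1, h2⟩
      exact ⟨hHlt n g i (val_lt h1).1 (subVal_dom h2), subVal_lt (loc_val_lt hg h1) h2, n,
        (val_lt h1).1, b, (val_lt h1).2, h1, h2⟩
  have hD : ∀ i, InDom el W' i ↔ ∃ n, InDom el g n ∧ InDom el (y n) i := by
    intro i
    constructor
    · rintro ⟨u, hu⟩
      obtain ⟨n, b, h1, h2⟩ := (hV i u).1 hu
      exact ⟨n, ⟨b, h1⟩, subVal_dom h2⟩
    · rintro ⟨n, ⟨b, h1⟩, h2⟩
      obtain ⟨u, hu⟩ := subVal_ex b (hvar n).1 h2
      exact ⟨u, (hV i u).2 ⟨n, b, h1, hu⟩⟩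
  have hloc : LocWord el k W' := by
    refine loc_of hF1 ?_ ?_
    · intro i u v hu hv
      obtain ⟨n, b, h1, h2⟩ := (hV i u).1 hu
      obtain ⟨n', b', h3, h4⟩ := (hV i v).1 hv
      have e1 := hdis n n' i (subVal_dom h2) (subVal_dom h4)
      subst e1
      have e2 := hg.fn _ _ _ h1 h3
      subst e2
      exact subVal_fn (hvar n).1 h2 h4
    · obtain ⟨n, hn⟩ := hg.ne
      exact ⟨Hm n, (hD _).2 ⟨n, hn, (hH n).1⟩⟩
  have hres : f (om W') = d := hd g W' hg ⟨hloc, hV⟩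
  -- counting
  have hwin : ∀ n i, Hm n ≤ i → i < Hm (n + 1) →
      (InDom el W' i ↔ InDom el g n ∧ InDom el (y n) i) := by
    intro n i h1 h2
    rw [hD]
    constructor
    · rintro ⟨n', h3, h4⟩
      rcases lt_trichotomy n' n with h | h | h
      · exact absurd (hHlt n' n i h h4) (not_lt.2 h1)
      · subst h
        exact ⟨h3, h4⟩
      · exfalso
        rcases lt_or_eq_of_le (succ_le_iff.2 h) with h5 | h5
        · have h6 := hblk (n + 1) n' _ i h5 (hH (n + 1)).1 h4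
          exact absurd h2 (not_lt.2 h6.le)
        · rw [← h5] at h4
          exact absurd h2 (not_lt.2 (hHle _ _ h4))
    · rintro ⟨h3, h4⟩
      exact ⟨n, h3, h4⟩
  have hstep : ∀ n, cnt W' (Hm n) = s n → ∀ x, Hm n + x ≤ Hm (n + 1) →
      (InDom el g n → cnt W' (Hm n + x) = s n + cnt (y n) (Hm n + x)) ∧
      (¬ InDom el g n → cnt W' (Hm n + x) = s n) := by
    intro n hn
    refine cind (P := fun x => Hm n + x ≤ Hm (n + 1) →
      (InDom el g n → cnt W' (Hm n + x) = s n + cnt (y n) (Hm n + x)) ∧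
      (¬ InDom el g n → cnt W' (Hm n + x) = s n)) (by fun_prop) ?_ ?_
    · intro _
      rw [add_zero, hn, cnt_low (hH n).2, add_zero]
      exact ⟨fun _ => rfl, fun _ => rfl⟩
    · intro x hx h1
      rw [← add_assoc] at h1 ⊢
      have h2 : Hm n + x < Hm (n + 1) := succ_le_iff.1 h1
      have h3 := hwin n (Hm n + x) le_self_add h2
      obtain ⟨h4, h5⟩ := hx h2.le
      refine ⟨fun h6 => ?_, fun h6 => ?_⟩
      · by_cases h7 : InDom el (y n) (Hm n + x)
        · rw [cnt_succ (h3.2 ⟨h6, h7⟩), cnt_succ h7, h4 h6, add_assoc]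
        · rw [cnt_succ' (fun h => h7 (h3.1 h).2), cnt_succ' h7, h4 h6]
      · rw [cnt_succ' (fun h => h6 (h3.1 h).1), h5 h6]
  have hHs : ∀ n, Hm n < Hm (n + 1) := fun n => hHlt n (n + 1) _ (lt_self_succ n) (hH n).1
  have hmain : ∀ n, cnt W' (Hm n) = s n := by
    refine cind (P := fun n => cnt W' (Hm n) = s n) (by fun_prop) ?_ ?_
    · rw [hs0]
      refine cnt_low fun i hi h => ?_
      obtain ⟨n, -, h1⟩ := (hD i).1 h
      rcases eq_or_lt_of_le (zero_le' n) with h2 | h2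
      · rw [← h2] at h1
        exact (hH 0).2 i hi h1
      · exact absurd hi (not_lt.2 (hblk 0 n _ i h2 (hH 0).1 h1).le)
    · intro n hn
      obtain ⟨x, hx⟩ := le_iff_exists_add.1 (hHs n).le
      obtain ⟨h1, h2⟩ := hstep n hn x (le_of_eq hx.symm)
      rw [← hx] at h1 h2
      by_cases h3 : InDom el g n
      · rw [h1 h3, (hs1 n).1 h3, cnt_top (fun i hi => hHlt n (n + 1) i (lt_self_succ n) hi)]
      · rw [h2 h3, (hs1 n).2 h3]
  have hkey : ∀ n i, InDom el g n → InDom el (y n) i → cnt W' i = s n + cnt (y n) i := by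
    intro n i h1 h2
    obtain ⟨x, hx⟩ := le_iff_exists_add.1 (hHle n i h2)
    obtain ⟨h3, -⟩ := hstep n (hmain n) x
      (by rw [← hx]; exact (hHlt n (n + 1) i (lt_self_succ n) h2).le)
    rw [← hx] at h3
    exact h3 h1
  have hext : om W' = W := by
    refine loc_ext (om_word hloc).1 hL.1 fun t u => ?_
    rw [om_val, hsW]
    constructor
    · rintro ⟨i, h1, h2⟩
      obtain ⟨n, b, h3, h4⟩ := (hV i u).1 h1
      refine ⟨n, b, cnt (y n) i, h3, ?_, om_sub.2 ⟨i, h4, rfl⟩⟩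
      rw [← h2, hkey n i ⟨b, h3⟩ (subVal_dom h4)]
    · rintro ⟨n, b, t', h3, h4, h5⟩
      obtain ⟨i, h6, h7⟩ := om_sub.1 h5
      refine ⟨i, (hV i u).2 ⟨n, b, h3, h6⟩, ?_⟩
      rw [hkey n i ⟨b, h3⟩ (subVal_dom h6), h7, h4]
  rw [← hext]
  exact hres

end Pool.Agent.CTW
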