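import Pool.Agent.CTW.St

/-!
# CTW: blocks of consecutive words
-/

set_option autoImplicit false

namespace Pool.Agent.CTW

open RT22P RT22P.Env

namespace Blkx

variable {M : Type} [Env M]

private lemma P_mono {P l : M → M} (hP : Comp M P) (hl : ∀ n, 0 < l n)
    (hs : ∀ m, P (m + 1) = P m + l m) : ∀ d i, i < d → P i < P d := by
  refine cind (P := fun d => ∀ i, i < d → P i < P d) (by fun_prop) ?_ ?_
  · intro i hi
    exact absurd hi (not_lt_zero' i)
  · intro d ih i hi
    have h1 : P d < P (d + 1) := by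
      rw [hs]
      exact lt_add_of_pos_right _ (hl d)
    rcases lt_or_eq_of_le (lt_succ.1 hi) with h2 | h2
    · exact (ih i h2).trans h1
    · rw [h2]
      exact h1

private lemma pair {P : M → M} (hP : Comp M P) (hm : ∀ d i, i < d → P i < P d) {p : M → M}
    {r : M → M → M} (S : PRem p r) (b : M) :
    ∃ a b' q, b ≤ a ∧ a < b' ∧ P b' = P a + q * p (P b) := by
  have hr := S.cr
  have hpp := S.cp
  have hN : 0 < p (P b) := lt_of_le_of_lt (zero_le' _) (S.rlt 0 (P b))
  have hc : Comp M (fun i : M => r (P (b + i)) (P b)) :=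
    comp_comp (fun q : M × M => r q.1 q.2) (fun i : M => (P (b + i), P b)) hr (by fun_prop)
  have h1 : ∃ i j : M, i < j ∧ r (P (b + i)) (P b) = r (P (b + j)) (P b) := by
    by_contra hcon
    push Not at hcon
    have h2 := card_le_of_inj hc (a := ivl 0 (p (P b) + 1)) (b := ivl 0 (p (P b)))
      (fun x _ => el_ivl.2 ⟨zero_le' _, S.rlt _ _⟩) (fun x y _ _ hxy => by
        rcases lt_trichotomy x y with h3 | h3 | h3
        · exact absurd hxy (hcon x y h3)
        · exact h3
        · exact absurd hxy.symm (hcon y x h3))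
    have h3 := card_ivl (zero_le' (p (P b) + 1))
    have h4 := card_ivl (zero_le' (p (P b)))
    rw [add_zero] at h3 h4
    rw [h3, h4] at h2
    exact absurd h2 (not_le.2 (lt_self_succ _))
  obtain ⟨i, j, hij, he⟩ := h1
  obtain ⟨q1, hq1⟩ := S.rq (P (b + i)) (P b)
  obtain ⟨q2, hq2⟩ := S.rq (P (b + j)) (P b)
  have hbij : b + i < b + j := add_lt_add_right hij b
  have h2 : q1 ≤ q2 := by
    by_contra h3
    rw [not_le] at h3
    have h4 : P (b + j) ≤ P (b + i) := by
      rw [hq1, hq2, he]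
      have h5 : q2 * p (P b) ≤ q1 * p (P b) := mul_le_mul_left h3.le _
      exact add_le_add_left h5 _
    exact absurd (hm _ _ hbij) (not_lt.2 h4)
  obtain ⟨d, hd⟩ := exists_add_of_le h2
  refine ⟨b + i, b + j, d, le_self_add, hbij, ?_⟩
  rw [hq2, ← he, hd]
  conv_rhs => rw [hq1]
  ring

end Blkx

open Blkx in
/-- **BLK** -/
theorem thm_Blk : St_Blk := by
  intro M _ p r S l hl hl0
  obtain ⟨P, hP, hP0, hP1⟩ := iter (M := M) (0 : M) (h := fun n x => x + l n) (by fun_prop)
  have hm := P_mono hP hl0 hP1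
  have hpp := S.cp
  obtain ⟨G, hG, hG1⟩ := search (M := M) (Γ := M) (Δ := M × M × M)
    (P := fun b x => b ≤ x.1 ∧ x.1 < x.2.1 ∧ P x.2.1 = P x.1 + x.2.2 * p (P b))
    (sig_of_comp (by fun_prop)) (fun b => by
      obtain ⟨a, b', q, h1, h2, h3⟩ := pair hP hm S b
      exact ⟨(a, b', q), h1, h2, h3⟩)
  obtain ⟨β, hβ, hβ0, hβ1⟩ := iter (M := M) (0 : M) (h := fun _ x => (G x).2.1) (by fun_prop)
  refine ⟨P, fun n => (G (β n)).1, β, hP, by fun_prop, hβ, hP0, hP1, hβ0, fun n => ?_⟩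
  obtain ⟨h1, h2, h3⟩ := hG1 (β n)
  refine ⟨h1, ?_, (G (β n)).2.2, ?_⟩
  · rw [hβ1]
    exact h2
  · rw [hβ1]
    exact h3

end Pool.Agent.CTW
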