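import Pool.Agent.CTW.Bas

/-!
Concatenation of the words `y n`, `n` in the domain of `g`.
-/

set_option autoImplicit false

namespace Pool.Agent.CTW

open RT22P RT22P.Env

namespace Catx

variable {M : Type} [Env M]

theorem mono {s : M → M} (hs : Comp M s) (h : ∀ n, s n ≤ s (n + 1)) {a b : M} (hab : a ≤ b) :
    s a ≤ s b := by
  obtain ⟨x, rfl⟩ := exists_add_of_le hab
  have h1 : ∀ x, s a ≤ s (a + x) := by
    refine cind (P := fun x => s a ≤ s (a + x)) ?_ ?_ ?_
    · exact comp_le _ _ (comp_const _) (comp_comp s (fun x : M => a + x) hs (by fun_prop))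
    · rw [add_zero]
    · intro x hx
      rw [← add_assoc]
      exact le_trans hx (h _)
  exact h1 x

theorem const {s : M → M} (hs : Comp M s) {a b : M} (h : ∀ n, a ≤ n → s (n + 1) = s n)
    (hab : a ≤ b) : s b = s a := by
  obtain ⟨x, rfl⟩ := exists_add_of_le hab
  have h1 : ∀ x, s (a + x) = s a := by
    refine cind (P := fun x => s (a + x) = s a) ?_ ?_ ?_
    · exact comp_eq _ _ (comp_comp s (fun x : M => a + x) hs (by fun_prop)) (comp_const _)
    · rw [add_zero]
    · intro x hx
      rw [← add_assoc, h _ le_self_add, hx]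
  exact h1 x

end Catx

theorem thm_Cat : St_Cat := by
  intro M _ k y l hy hl hw g hg
  classical
  obtain ⟨s, hs, s0, s1⟩ := iter (M := M) (0 : M)
    (h := fun n x => if InDom el g n then x + l n else x)
    (comp_ite (P := fun q : M × M => InDom el g q.1) (f := fun q : M × M => q.2 + l q.1)
      (g := fun q : M × M => q.2) (by fun_prop)
      (comp_add _ _ (by fun_prop) (comp_comp l (fun q : M × M => q.1) hl (by fun_prop)))
      (by fun_prop))
  have hin : ∀ n, InDom el g n → s (n + 1) = s n + l n := fun n h => by rw [s1, if_pos h]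
  have hout : ∀ n, ¬ InDom el g n → s (n + 1) = s n := fun n h => by rw [s1, if_neg h]
  have hstep : ∀ n, s n ≤ s (n + 1) := by
    intro n
    by_cases h : InDom el g n
    · rw [hin n h]
      exact le_self_add
    · rw [hout n h]
  have hmono : ∀ {a b : M}, a ≤ b → s a ≤ s b := fun h => Catx.mono hs hstep h
  have hR : Comp M (fun q : (M × M) × M => ∃ n, n < g ∧ ∃ b, b < g ∧ ∃ t, t ≤ q.1.2 ∧
      (Val el g n b ∧ q.1.2 = s n + t ∧ SubVal el k (y n) b t q.2)) := by
    fun_prop
  obtain ⟨F, hF, hF'⟩ := exists_pf (M := M) (Γ := M) (R := fun _ j u => ∃ n, n < g ∧ ∃ b, b < g ∧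
    ∃ t, t ≤ j ∧ (Val el g n b ∧ j = s n + t ∧ SubVal el k (y n) b t u)) hR
    (b := fun _ => s g) (k := fun _ => k) (comp_const _) (comp_const _)
  have hlt : ∀ n b t u, Val el g n b → SubVal el k (y n) b t u → s n + t < s (n + 1) := by
    intro n b t u h1 h2
    rw [hin n ⟨b, h1⟩]
    exact add_lt_add_right (((hw n).2 t).1 (subVal_dom h2)) _
  have hle : ∀ n, InDom el g n → s (n + 1) ≤ s g := fun n h => hmono (succ_le_iff.2 (inDom_lt h))
  have hval : ∀ j u, Val el (F 0) j u ↔ ∃ n b t, Val el g n b ∧ j = s n + t ∧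
      SubVal el k (y n) b t u := by
    intro j u
    rw [(hF' 0).2 j u]
    constructor
    · rintro ⟨-, -, n, -, b, -, t, -, h⟩
      exact ⟨n, b, t, h⟩
    · rintro ⟨n, b, t, h1, h2, h3⟩
      refine ⟨?_, subVal_lt (loc_val_lt hg h1) h3, n, (val_lt h1).1, b, (val_lt h1).2, t, ?_,
        h1, h2, h3⟩
      · rw [h2]
        exact lt_of_lt_of_le (hlt n b t u h1 h3) (hle n ⟨b, h1⟩)
      · rw [h2]
        exact le_add_self
  have hdis : ∀ {n m j : M}, j < s (n + 1) → s m ≤ j → ¬ n < m := by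
    intro n m j h1 h2 h3
    exact absurd (lt_of_lt_of_le h1 (le_trans (hmono (succ_le_iff.2 h3)) h2)) (lt_irrefl _)
  have hdom : ∀ j, j < s g → InDom el (F 0) j := by
    intro j hj
    obtain ⟨n, hn, hn'⟩ := leastC (P := fun n => j < s (n + 1))
      (comp_lt _ _ (comp_const _) (comp_comp s (fun x : M => x + 1) hs (by fun_prop)))
      ⟨g, lt_of_lt_of_le hj (hstep g)⟩
    have hn1 : s n ≤ j := by
      rcases zero_or_succ n with h | ⟨m, h⟩
      · rw [h, s0]
        exact zero_le' j
      · rw [h]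
        exact not_lt.1 (hn' m (by rw [h]; exact lt_self_succ m))
    have hd : InDom el g n := by
      by_contra hc
      rw [hout n hc] at hn
      exact absurd (lt_of_lt_of_le hn hn1) (lt_irrefl _)
    obtain ⟨b, hb⟩ := hd
    obtain ⟨t, rfl⟩ := exists_add_of_le hn1
    rw [hin n ⟨b, hb⟩] at hn
    have ht : t < l n := lt_of_add_lt_add_left hn
    obtain ⟨u, hu⟩ := subVal_ex b (hw n).1 (((hw n).2 t).2 ht)
    exact ⟨u, (hval _ u).2 ⟨n, b, t, hb, rfl, hu⟩⟩
  refine ⟨F 0, s, hs, s0, fun n => ⟨hin n, hout n⟩, hval, ⟨loc_of (hF' 0).1 ?_ ?_, fun j =>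
    ⟨fun ⟨u, hu⟩ => ((hF' 0).2 j u).1 hu |>.1, hdom j⟩⟩, fun N hN => ?_⟩
  · intro j u v hu hv
    obtain ⟨n, b, t, h1, h2, h3⟩ := (hval j u).1 hu
    obtain ⟨n', b', t', h1', h2', h3'⟩ := (hval j v).1 hv
    have e : n = n' := by
      apply le_antisymm
      · refine not_lt.1 (hdis (j := j) ?_ ?_)
        · rw [h2']
          exact hlt n' b' t' v h1' h3'
        · rw [h2]
          exact le_self_add
      · refine not_lt.1 (hdis (j := j) ?_ ?_)
        · rw [h2]
          exact hlt n b t u h1 h3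
        · rw [h2']
          exact le_self_add
    subst e
    have e2 : t = t' := add_left_cancel (h2.symm.trans h2')
    subst e2
    have e3 : b = b' := hg.fn _ _ _ h1 h1'
    subst e3
    exact subVal_fn (hw n).1 h3 h3'
  · obtain ⟨n, hn⟩ := hg.ne
    refine ⟨0, hdom 0 (lt_of_lt_of_le ?_ (hle n hn))⟩
    rw [hin n hn]
    exact lt_of_lt_of_le (word_pos (hw n)) le_add_self
  · exact Catx.const hs (fun n hn => hout n fun h => absurd (lt_of_le_of_lt hn (inDom_lt h))
      (lt_irrefl _)) hN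

end Pool.Agent.CTW
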