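import Pool.Agent.RTP.Raw

/-!
Models `(M, S)` of second order arithmetic (base theory `RCA_0`: `RT22P.IsRCA0`): Hindman's theorem `HT`,
Carlson's theorem for words `CT` and for located words `CTloc`.  Only definitions.
`k` is the size of the alphabet `{0, ..., k - 1}`, the symbol `⋆` is the letter `k`, `c` is the number of
colours.
-/

namespace Pool.Agent.CTW

open RT22P

variable {M : Type} [Zero M] [One M] [Add M] [Mul M] [LT M]

/-- The function `f` belongs to the model: its graph (a set of codes of pairs) is in `S`. -/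
def Fn (S : Set (Set M)) (f : M → M) : Prop := {z | ∃ x, z = pr x (f x)} ∈ S

/-- `p` is the function `2 ^ x` of the model. -/
def IsPow (S : Set (Set M)) (p : M → M) : Prop :=
  Fn S p ∧ p 0 = 1 ∧ ∀ x, p (x + 1) = p x + p x

/-- The binary digit number `x` of `a` is `1` (`p x = 2 ^ x`): `x` belongs to the finite set with
code `a`. -/
def Dig (p : M → M) (x a : M) : Prop := ∃ q r, r < p x ∧ a = (q + q + 1) * p x + r

/-- The finite function with code `a` has the value `u` at `i` (`E x a`: `x` belongs to the
finite set with code `a`; a finite function is coded as the finite set of its pairs). -/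
def Val (E : M → M → Prop) (a i u : M) : Prop := E (pr i u) a

/-- `i` belongs to the domain of `a`. -/
def InDom (E : M → M → Prop) (a i : M) : Prop := ∃ u, Val E a i u

/-- `a` is (the code of) a finite function with nonempty finite domain and values `< k`, that is, a
located word over the alphabet `{0, ..., k - 1}`. -/
structure LocWord (E : M → M → Prop) (k a : M) : Prop where
  cod : ∀ x, E x a → ∃ i u, x = pr i u ∧ u < k
  fn : ∀ i u v, Val E a i u → Val E a i v → u = v
  ne : ∃ i, InDom E a i

/-- `a` is a located variable word over the alphabet `{0, ..., k - 1}`; the letter `k` is `⋆`. -/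
def VarLoc (E : M → M → Prop) (k a : M) : Prop := LocWord E (k + 1) a ∧ ∃ i, Val E a i k

/-- `a` is a word of length `l > 0` over the alphabet `{0, ..., k - 1}`. -/
def Word (E : M → M → Prop) (k l a : M) : Prop := LocWord E k a ∧ ∀ i, InDom E a i ↔ i < l

/-- `a` is a variable word of length `l` over the alphabet `{0, ..., k - 1}`; the letter `k` is `⋆`. -/
def VarWord (E : M → M → Prop) (k l a : M) : Prop := Word E (k + 1) l a ∧ ∃ i, Val E a i k

/-- The value of `a[b]` at `i` is `u`: the symbol `⋆` is replaced by the letter `b`. -/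
def SubVal (E : M → M → Prop) (k a b i u : M) : Prop :=
  (u < k ∧ Val E a i u) ∨ (u = b ∧ Val E a i k)

/-- `w` is the located word `y_(n_0)[a_0] ∪ ... ∪ y_(n_(r-1))[a_(r-1)]`, where `{n_0, ..., n_(r-1)}` is
the domain and `a_0, ..., a_(r-1)` are the values of `g`. -/
def InLoc (E : M → M → Prop) (k : M) (y : M → M) (g w : M) : Prop :=
  LocWord E k w ∧ ∀ i u, Val E w i u ↔ ∃ n b, Val E g n b ∧ SubVal E k (y n) b i u

/-- `w` is the word `y_(n_0)[a_0] ... y_(n_(r-1))[a_(r-1)]` (concatenation), where
`{n_0 < ... < n_(r-1)}` is the domain and `a_0, ..., a_(r-1)` are the values of `g`, and `l n` is the length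
of `y n`; `s n` is the total length of the pieces `y_(n_i)` with `n_i < n`. -/
def InWord (S : Set (Set M)) (E : M → M → Prop) (k : M) (y l : M → M) (g w : M) : Prop :=
  (∃ L, Word E k L w) ∧ ∃ s : M → M, Fn S s ∧ s 0 = 0 ∧
    (∀ n, (InDom E g n → s (n + 1) = s n + l n) ∧ (¬ InDom E g n → s (n + 1) = s n)) ∧
    ∀ j u, Val E w j u ↔ ∃ n b t, Val E g n b ∧ j = s n + t ∧ SubVal E k (y n) b t u

/-- Carlson's theorem for located words over an alphabet of size `k` and colourings with the colours
`< c`; finite sets are coded by `E`. -/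
def CTlocE (S : Set (Set M)) (E : M → M → Prop) (k c : M) : Prop :=
  ∀ f : M → M, Fn S f → (∀ a, f a < c) → ∃ y : M → M, Fn S y ∧ (∀ n, VarLoc E k (y n)) ∧
    (∀ m n i j, m < n → InDom E (y m) i → InDom E (y n) j → i < j) ∧
    ∃ d, ∀ g w, LocWord E k g → InLoc E k y g w → f w = d

/-- Carlson's theorem for words over an alphabet of size `k` and colourings with the colours `< c`;
finite sets are coded by `E`. -/
def CTE (S : Set (Set M)) (E : M → M → Prop) (k c : M) : Prop :=
  ∀ f : M → M, Fn S f → (∀ a, f a < c) → ∃ y l : M → M, Fn S y ∧ Fn S l ∧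
    (∀ n, VarWord E k (l n) (y n)) ∧
    ∃ d, ∀ g w, LocWord E k g → InWord S E k y l g w → f w = d

/-- Carlson's theorem for located words, alphabet of size `k`, `c` colours. -/
def CTloc (S : Set (Set M)) (k c : M) : Prop := ∀ p, IsPow S p → CTlocE S (Dig p) k c

/-- Carlson's theorem for words, alphabet of size `k`, `c` colours. -/
def CT (S : Set (Set M)) (k c : M) : Prop := ∀ p, IsPow S p → CTE S (Dig p) k c

/-- `s x` is the sum of the elements of `F` which are `< x`. -/
def SumTo (S : Set (Set M)) (F : Set M) (s : M → M) : Prop :=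
  Fn S s ∧ s 0 = 0 ∧ ∀ x, (x ∈ F → s (x + 1) = s x + x) ∧ (x ∉ F → s (x + 1) = s x)

/-- Hindman's theorem. -/
def HT (S : Set (Set M)) : Prop :=
  ∀ c : M, ∀ f : M → M, Fn S f → (∀ a, f a < c) → ∃ Y ∈ S, Unb Y ∧ ∃ d, ∀ F ∈ S, F ⊆ Y →
    F.Nonempty → ∀ b, (∀ x ∈ F, x < b) → ∀ s, SumTo S F s → f (s b) = d

end Pool.Agent.CTW
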