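import Pool.Agent.CTW.St

/-!
# CTW: binary digits give an environment (helper81)

A copy of `Pool/Agent/RTP/BPow.lean` with a given power function.
-/

set_option autoImplicit false

namespace Pool.Agent.CTW.Digx

open RT22P RT22P.Env

section
variable {M : Type} [Env1 M]

private lemma dig_lt_succ {x y : M} : x < y + 1 ↔ x ≤ y := by
  constructor
  · intro h
    by_contra hc
    exact absurd (lt_of_lt_of_le h (Arith.succ_le (not_le.1 hc))) (lt_irrefl _)
  · intro h
    exact lt_of_le_of_lt h (lt_add_one _)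

private lemma dig_ind {P : M → Prop} (hP : Comp M P) (h0 : P 0) (h1 : ∀ x, P x → P (x + 1))
    (x : M) : P x :=
  Env0.sind (P := P) ⟨fun q => P q.1, by fun_prop, fun v => ⟨fun h => ⟨0, h⟩, fun ⟨_, h⟩ => h⟩⟩
    h0 h1 x

private lemma dig_ite {Γ : Type} [Enc M Γ] {P : Γ → Prop} {f g : Γ → M} (hP : Comp M P)
    (hf : Comp M f) (hg : Comp M g) :
    ∃ F : Γ → M, Comp M F ∧ (∀ v, P v → F v = f v) ∧ (∀ v, ¬ P v → F v = g v) := by
  obtain ⟨F, hF, h⟩ := Env0.c_search (M := M)
    (P := fun q : Γ × M => (P q.1 → q.2 = f q.1) ∧ (¬ P q.1 → q.2 = g q.1)) (by fun_prop)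
    (fun v => by
      by_cases h : P v
      · exact ⟨f v, fun _ => rfl, fun h' => absurd h h'⟩
      · exact ⟨g v, fun h' => absurd h' h, fun _ => rfl⟩)
  exact ⟨F, hF, fun v hv => (h v).1.1 hv, fun v hv => (h v).1.2 hv⟩

private lemma dig_div (a d : M) (hd : 0 < d) : ∃ q r, a = q * d + r ∧ r < d := by
  have h := dig_ind (P := fun a => ∃ q, q ≤ a ∧ ∃ r, r < d ∧ a = q * d + r) (by fun_prop)
    ⟨0, le_rfl, 0, hd, by simp⟩ ?_ a
  · obtain ⟨q, -, r, hr, h⟩ := h
    exact ⟨q, r, h, hr⟩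
  · rintro a ⟨q, hq, r, hr, h⟩
    rcases (Arith.succ_le hr).lt_or_eq with h1 | h1
    · exact ⟨q, hq.trans (le_self_add), r + 1, h1, by rw [h]; ring⟩
    · refine ⟨q + 1, by gcongr, 0, hd, ?_⟩
      calc a + 1 = q * d + (r + 1) := by rw [h]; ring
        _ = (q + 1) * d + 0 := by rw [h1]; ring

private lemma dig_unique {q q' r r' d : M} (hr : r < d) (hr' : r' < d)
    (h : q * d + r = q' * d + r') : q = q' ∧ r = r' := by
  have key : ∀ {q q' r r' : M}, r < d → q * d + r = q' * d + r' → ¬ q < q' := by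
    intro q q' r r' hr h hlt
    have h1 : (q + 1) * d ≤ q' * d := by
      have := Arith.succ_le hlt
      gcongr
    have h2 : q * d + r < q' * d + r' :=
      calc q * d + r < q * d + d := by gcongr
        _ = (q + 1) * d := by ring
        _ ≤ q' * d := h1
        _ ≤ q' * d + r' := le_self_add
    exact absurd h h2.ne
  have hq : q = q' := le_antisymm (not_lt.1 (key hr' h.symm)) (not_lt.1 (key hr h))
  subst hq
  exact ⟨rfl, add_left_cancel h⟩

private lemma dig_zero_or {x : M} : x = 0 ∨ ∃ y, x = y + 1 := by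
  rcases eq_or_ne x 0 with h | h
  · exact Or.inl h
  · right
    have h1 : 0 + 1 ≤ x := Arith.succ_le (pos_iff_ne_zero.2 h)
    rw [zero_add] at h1
    obtain ⟨y, hy⟩ := exists_add_of_le h1
    exact ⟨y, by rw [hy, add_comm]⟩

private lemma dig_parity (q : M) : (∃ q', q = 2 * q') ∨ ∃ q', q = 2 * q' + 1 := by
  obtain ⟨q', r, h, hr⟩ := dig_div q 2 two_pos
  rcases dig_zero_or (x := r) with h1 | ⟨s, h1⟩
  · left
    exact ⟨q', by rw [h, h1]; ring⟩
  · right
    rcases dig_zero_or (x := s) with h2 | ⟨t, h2⟩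
    · exact ⟨q', by rw [h, h1, h2]; ring⟩
    · exfalso
      rw [h1, h2] at hr
      have h3 : (2 : M) ≤ t + 1 + 1 := by
        calc (2 : M) = 0 + 1 + 1 := by norm_num
          _ ≤ t + 1 + 1 := by
            have h4 : (0 : M) ≤ t := zero_le
            gcongr
      exact absurd hr (not_lt.2 h3)

private lemma dig_parity_ne {q q' : M} (h : 2 * q = 2 * q' + 1) : False := by
  have h1 : q * 2 + 0 = q' * 2 + 1 := by
    calc q * 2 + 0 = 2 * q := by ring
      _ = 2 * q' + 1 := h
      _ = q' * 2 + 1 := by ring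
  have h2 := (dig_unique (d := (2 : M)) two_pos one_lt_two h1).2
  exact zero_ne_one h2

section
variable {p : M → M} (hp : Comp M p) (h0 : p 0 = 1) (h1 : ∀ n, p (n + 1) = 2 * p n)
include hp h0 h1

private lemma dig_pos (n : M) : 0 < p n := by
  refine dig_ind (P := fun n => 0 < p n) (by fun_prop) (by rw [h0]; exact one_pos)
    (fun x hx => ?_) n
  rw [h1]
  exact mul_pos two_pos hx

private lemma dig_gt (n : M) : n < p n := by
  refine dig_ind (P := fun n => n < p n) (by fun_prop) (by rw [h0]; exact one_pos)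
    (fun x hx => ?_) n
  rw [h1]
  calc x + 1 ≤ p x := Arith.succ_le hx
    _ < p x + p x := lt_add_of_pos_right _ (dig_pos hp h0 h1 x)
    _ = 2 * p x := by ring

private lemma dig_add (x j : M) : p (x + j) = p x * p j := by
  refine dig_ind (P := fun j => p (x + j) = p x * p j) (by fun_prop) (by rw [h0, add_zero, mul_one])
    (fun j hj => ?_) j
  rw [← add_assoc, h1, h1, hj]
  ring

private lemma dig_mono {x y : M} (h : x ≤ y) : p x ≤ p y := by
  obtain ⟨j, rfl⟩ := exists_add_of_le h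
  rw [dig_add hp h0 h1]
  calc p x = p x * 1 := by ring
    _ ≤ p x * p j := by
      have : (1 : M) ≤ p j := by
        have := Arith.succ_le (dig_pos hp h0 h1 j)
        rwa [zero_add] at this
      gcongr

omit hp h0 h1 in
/-- membership -/
private def dig_el (p : M → M) (x a : M) : Prop :=
  ∃ q, q ≤ a ∧ ∃ r, r ≤ a ∧ (a = (2 * q + 1) * p x + r ∧ r < p x)

private lemma dig_el_iff {x a q r : M} (ha : a = q * p x + r) (hr : r < p x) :
    dig_el p x a ↔ ∃ q', q = 2 * q' + 1 := by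
  constructor
  · rintro ⟨q', -, r', -, h2, h3⟩
    rw [ha] at h2
    exact ⟨q', (dig_unique hr h3 h2).1⟩
  · rintro ⟨q', rfl⟩
    refine ⟨q', ?_, r, ?_, ha, hr⟩
    · have h2 : (1 : M) ≤ p x := by
        have := Arith.succ_le (dig_pos hp h0 h1 x)
        rwa [zero_add] at this
      calc q' ≤ q' + (q' + 1) := le_self_add
        _ = (2 * q' + 1) * 1 := by ring
        _ ≤ (2 * q' + 1) * p x := by gcongr
        _ ≤ (2 * q' + 1) * p x + r := le_self_add
        _ = a := ha.symm
    · rw [ha]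
      exact le_add_self

private lemma dig_el_lt {x a : M} (h : dig_el p x a) : x < a := by
  obtain ⟨q, -, r, -, h2, -⟩ := h
  calc x < p x := dig_gt hp h0 h1 x
    _ = 1 * p x := by ring
    _ ≤ (2 * q + 1) * p x := by
      have : (1 : M) ≤ 2 * q + 1 := le_add_self
      gcongr
    _ ≤ (2 * q + 1) * p x + r := le_self_add
    _ = a := h2.symm

/-- digits of small numbers -/
private lemma dig_small {x a n : M} (ha : a < p n) (h : dig_el p x a) : x < n := by
  by_contra hc
  obtain ⟨q, -, r, -, h2, -⟩ := h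
  have h3 : p n ≤ a :=
    calc p n ≤ p x := dig_mono hp h0 h1 (not_lt.1 hc)
      _ = 1 * p x := by ring
      _ ≤ (2 * q + 1) * p x := by
        have : (1 : M) ≤ 2 * q + 1 := le_add_self
        gcongr
      _ ≤ (2 * q + 1) * p x + r := le_self_add
      _ = a := h2.symm
  exact absurd ha (not_lt.2 h3)

private lemma dig_step {x a n : M} (ha : a < p n) :
    dig_el p x (a + p n) ↔ dig_el p x a ∨ x = n := by
  rcases lt_trichotomy x n with h | h | h
  · obtain ⟨j, hj⟩ := exists_add_of_le (Arith.succ_le h)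
    obtain ⟨q, r, h2, h3⟩ := dig_div a (p x) (dig_pos hp h0 h1 x)
    have h4 : a + p n = (q + 2 * p j) * p x + r := by
      rw [hj, dig_add hp h0 h1, h1]
      calc a + 2 * p x * p j = (q * p x + r) + 2 * p x * p j := by rw [← h2]
        _ = (q + 2 * p j) * p x + r := by ring
    rw [dig_el_iff hp h0 h1 h4 h3, dig_el_iff hp h0 h1 h2 h3]
    constructor
    · rintro ⟨q', hq'⟩
      left
      rcases dig_parity q with ⟨s, hs⟩ | hs
      · exfalso
        rw [hs] at hq'
        exact dig_parity_ne (q := s + p j) (q' := q') (by rw [← hq']; ring)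
      · exact hs
    · rintro (⟨q', hq'⟩ | h5)
      · exact ⟨q' + p j, by rw [hq']; ring⟩
      · exact absurd h5 h.ne
  · subst h
    refine ⟨fun _ => Or.inr rfl, fun _ => ?_⟩
    exact (dig_el_iff hp h0 h1 (q := 1) (r := a) (by ring) ha).2 ⟨0, by ring⟩
  · constructor
    · intro h2
      have h3 : a + p n < p (n + 1) := by
        rw [h1]
        calc a + p n < p n + p n := by gcongr
          _ = 2 * p n := by ring
      have h4 := dig_small hp h0 h1 h3 h2
      exact absurd (dig_lt_succ.1 h4) (not_le.2 h)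
    · rintro (h2 | h2)
      · exact absurd (dig_small hp h0 h1 ha h2) (not_lt.2 h.le)
      · exact absurd h2 h.ne'

omit h0 h1 in
private lemma dig_G {Γ : Type} [Enc M Γ] {P : Γ × M → Prop} (hP : Comp M P) :
    ∃ G : Γ × M → M, Comp M G ∧ (∀ v, G (v, 0) = 0) ∧
      (∀ v n, P (v, n) → G (v, n + 1) = G (v, n) + p n) ∧
      (∀ v n, ¬ P (v, n) → G (v, n + 1) = G (v, n)) := by
  obtain ⟨I, hI, hI1, hI2⟩ := dig_ite (M := M) (Γ := Γ × (M × M)) (P := fun q => P (q.1, q.2.1))
    (f := fun q => q.2.2 + p q.2.1) (g := fun q => q.2.2) (by fun_prop) (by fun_prop) (by fun_prop)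
  obtain ⟨G, hG, hG0, hG1⟩ := Env1.c_prec (M := M) (Γ := Γ) (g := fun _ => 0) (h := I)
    (by fun_prop) hI
  exact ⟨G, hG, hG0, fun v n h => by rw [hG1, hI1 _ h], fun v n h => by rw [hG1, hI2 _ h]⟩

variable {Γ : Type} [Enc M Γ] {P : Γ × M → Prop} {G : Γ × M → M} (hG : Comp M G)
  (g0 : ∀ v, G (v, 0) = 0) (g1 : ∀ v n, P (v, n) → G (v, n + 1) = G (v, n) + p n)
  (g2 : ∀ v n, ¬ P (v, n) → G (v, n + 1) = G (v, n))
include hG g0 g1 g2

private lemma dig_G_lt (v : Γ) (n : M) : G (v, n) < p n := by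
  refine dig_ind (P := fun n => G (v, n) < p n) (by fun_prop) ?_ (fun n hn => ?_) n
  · rw [g0, h0]
    exact one_pos
  · rw [h1]
    by_cases h : P (v, n)
    · rw [g1 v n h]
      calc G (v, n) + p n < p n + p n := by gcongr
        _ = 2 * p n := by ring
    · rw [g2 v n h]
      calc G (v, n) < p n := hn
        _ ≤ p n + p n := le_self_add
        _ = 2 * p n := by ring

private lemma dig_G_el (hel : Comp M (fun x : M × M => dig_el p x.1 x.2)) (hP : Comp M P)
    (v : Γ) (x n : M) : dig_el p x (G (v, n)) ↔ x < n ∧ P (v, x) := by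
  have hel' : ∀ {Δ : Type} [Enc M Δ] (f g : Δ → M), Comp M f → Comp M g →
      Comp M (fun d => dig_el p (f d) (g d)) := fun f g hf hg =>
    Env0.c_comp (f := fun x : M × M => dig_el p x.1 x.2) hel (Env0.c_prod hf hg)
  refine dig_ind (P := fun n => dig_el p x (G (v, n)) ↔ x < n ∧ P (v, x)) ?_ ?_
    (fun n hn => ?_) n
  · refine comp_iff _ _ (hel' _ _ (by fun_prop) (by fun_prop)) (by fun_prop)
  · rw [g0]
    constructor
    · intro h
      exact absurd (dig_el_lt hp h0 h1 h) (not_lt.2 zero_le)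
    · rintro ⟨h, -⟩
      exact absurd h (not_lt.2 zero_le)
  · by_cases h : P (v, n)
    · rw [g1 v n h, dig_step hp h0 h1 (dig_G_lt hp h0 h1 hG g0 g1 g2 v n), hn]
      constructor
      · rintro (⟨h3, h4⟩ | rfl)
        · exact ⟨h3.trans (lt_add_one n), h4⟩
        · exact ⟨lt_add_one _, h⟩
      · rintro ⟨h3, h4⟩
        rcases (dig_lt_succ.1 h3).lt_or_eq with h5 | h5
        · exact Or.inl ⟨h5, h4⟩
        · exact Or.inr h5
    · rw [g2 v n h, hn]
      constructor
      · rintro ⟨h3, h4⟩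
        exact ⟨h3.trans (lt_add_one n), h4⟩
      · rintro ⟨h3, h4⟩
        rcases (dig_lt_succ.1 h3).lt_or_eq with h5 | h5
        · exact ⟨h5, h4⟩
        · rw [h5] at h4
          exact absurd h4 h

end

section
variable {p : M → M} (hp : Comp M p) (h0 : p 0 = 1) (h1 : ∀ n, p (n + 1) = 2 * p n)
  {G : M × M → M} (hG : Comp M G)
  (g0 : ∀ v, G (v, 0) = 0) (g1 : ∀ a n, dig_el p n a → G (a, n + 1) = G (a, n) + p n)
  (g2 : ∀ a n, ¬ dig_el p n a → G (a, n + 1) = G (a, n))
include hp h0 h1 hG g0 g1 g2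

private lemma dig_digits (a k : M) : ∃ q, q ≤ a ∧ a = q * p k + G (a, k) := by
  refine dig_ind (P := fun k => ∃ q, q ≤ a ∧ a = q * p k + G (a, k)) (by fun_prop) ?_
    (fun k hk => ?_) k
  · exact ⟨a, le_rfl, by rw [h0, g0]; ring⟩
  · obtain ⟨q, hq, h2⟩ := hk
    have h3 := dig_G_lt hp h0 h1 (P := fun q : M × M => dig_el p q.2 q.1) hG g0 g1 g2 a k
    have h4 := dig_el_iff hp h0 h1 h2 h3
    rcases dig_parity q with ⟨q', hq'⟩ | ⟨q', hq'⟩
    · have h5 : ¬ dig_el p k a := by
        rw [h4]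
        rintro ⟨s, hs⟩
        exact dig_parity_ne (hq'.symm.trans hs)
      refine ⟨q', ?_, ?_⟩
      · calc q' ≤ q' + q' := le_self_add
          _ = q := by rw [hq']; ring
          _ ≤ a := hq
      · rw [g2 a k h5, h1]
        calc a = q * p k + G (a, k) := h2
          _ = q' * (2 * p k) + G (a, k) := by rw [hq']; ring
    · have h5 : dig_el p k a := h4.2 ⟨q', hq'⟩
      refine ⟨q', ?_, ?_⟩
      · calc q' ≤ q' + (q' + 1) := le_self_add
          _ = q := by rw [hq']; ring
          _ ≤ a := hq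
      · rw [g1 a k h5, h1]
        calc a = q * p k + G (a, k) := h2
          _ = q' * (2 * p k) + (G (a, k) + p k) := by rw [hq']; ring

private lemma dig_digits_eq {a k : M} (h : a < p k) : G (a, k) = a := by
  obtain ⟨q, -, hq⟩ := dig_digits hp h0 h1 hG g0 g1 g2 a k
  rcases dig_zero_or (x := q) with h2 | ⟨y, h2⟩
  · rw [h2, zero_mul, zero_add] at hq
    exact hq.symm
  · exfalso
    rw [h2] at hq
    have h3 : p k ≤ a := by
      calc p k ≤ p k + (y * p k + G (a, k)) := le_self_add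
        _ = (y + 1) * p k + G (a, k) := by ring
        _ = a := hq.symm
    exact absurd h (not_lt.2 h3)

private lemma dig_sub {a b : M} (hab : ∀ x, dig_el p x a → dig_el p x b) : a ≤ b := by
  have key : ∀ k, G (a, k) ≤ G (b, k) := by
    refine dig_ind (P := fun k => G (a, k) ≤ G (b, k)) (by fun_prop) (by rw [g0, g0])
      (fun k hk => ?_)
    by_cases h2 : dig_el p k a
    · rw [g1 a k h2, g1 b k (hab k h2)]
      gcongr
    · rw [g2 a k h2]
      by_cases h3 : dig_el p k b
      · rw [g1 b k h3]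
        exact hk.trans le_self_add
      · rw [g2 b k h3]
        exact hk
  have h4 : a < p (a + b) := lt_of_le_of_lt le_self_add (dig_gt hp h0 h1 (a + b))
  have h5 : b < p (a + b) := lt_of_le_of_lt le_add_self (dig_gt hp h0 h1 (a + b))
  have h6 := key (a + b)
  rwa [dig_digits_eq hp h0 h1 hG g0 g1 g2 h4, dig_digits_eq hp h0 h1 hG g0 g1 g2 h5] at h6

private lemma dig_bound {a b : M} (hab : ∀ x, dig_el p x a → x < b) : a < p b := by
  have key : ∀ k, G (a, b + k) = G (a, b) := by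
    refine dig_ind (P := fun k => G (a, b + k) = G (a, b)) (by fun_prop) (by rw [add_zero])
      (fun k hk => ?_)
    have h2 : ¬ dig_el p (b + k) a := fun h3 => absurd (hab _ h3) (not_lt.2 le_self_add)
    rw [← add_assoc, g2 a _ h2, hk]
  have h4 : a < p (b + a) := lt_of_le_of_lt le_add_self (dig_gt hp h0 h1 (b + a))
  have h5 := key a
  rw [dig_digits_eq hp h0 h1 hG g0 g1 g2 h4] at h5
  rw [h5]
  exact dig_G_lt hp h0 h1 (P := fun q : M × M => dig_el p q.2 q.1) hG g0 g1 g2 a b

end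

end


theorem dig_iff {M : Type} [Env1 M] {p : M → M} (hp : Comp M p) (h0 : p 0 = 1)
    (h1 : ∀ n, p (n + 1) = 2 * p n) (x a : M) : Dig p x a ↔ dig_el p x a := by
  constructor
  · rintro ⟨q, r, hr, ha⟩
    have ha' : a = (2 * q + 1) * p x + r := by rw [ha]; ring
    exact (dig_el_iff hp h0 h1 ha' hr).2 ⟨q, rfl⟩
  · rintro ⟨q, -, r, -, ha, hr⟩
    exact ⟨q, r, hr, by rw [ha]; ring⟩

end Pool.Agent.CTW.Digx

namespace Pool.Agent.CTW

open RT22P RT22P.Env Digx

theorem dig_exists {M : Type} [Env1 M] {p : M → M} (hp : Comp M p) (h0 : p 0 = 1)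
    (h1 : ∀ n, p (n + 1) = 2 * p n) :
    Comp M (fun x : M × M => Dig p x.1 x.2) ∧
    (∀ {x a : M}, Dig p x a → x < a) ∧
    (∀ {a b : M}, (∀ x, Dig p x a → Dig p x b) → a ≤ b) ∧
    (∀ {a b : M}, (∀ x, Dig p x a → x < b) → a < p b) ∧
    (∀ {Γ : Type} [Enc M Γ] {b : Γ → M} {P : Γ × M → Prop}, Comp M b → Comp M P →
      ∃ F : Γ → M, Comp M F ∧ ∀ v x, Dig p x (F v) ↔ x < b v ∧ P (v, x)) := by
  have e : Dig p = dig_el p := by
    funext x a
    exact propext (dig_iff hp h0 h1 x a)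
  rw [e]
  have hel : Comp M (fun x : M × M => dig_el p x.1 x.2) := by
    unfold dig_el
    fun_prop
  have hel' : Comp M (fun x : M × M => dig_el p x.2 x.1) := by
    unfold dig_el
    fun_prop
  obtain ⟨G, hG, g0, g1, g2⟩ := dig_G hp hel'
  refine ⟨hel, fun h => dig_el_lt hp h0 h1 h,
    fun h => dig_sub hp h0 h1 hG g0 g1 g2 h, fun h => dig_bound hp h0 h1 hG g0 g1 g2 h, ?_⟩
  intro Γ _ b P hb hP
  obtain ⟨F, hF, f0, f1, f2⟩ := dig_G hp hP
  exact ⟨fun v => F (v, b v), by fun_prop, fun v x =>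
    dig_G_el hp h0 h1 hF f0 f1 f2 hel hP v x (b v)⟩

theorem thm_Dig : St_Dig := by
  intro M E0 p hp h0 h1
  have h1' : ∀ n, p (n + 1) = 2 * p n := fun n => by rw [h1, two_mul]
  have H := dig_exists hp h0 h1'
  refine ⟨{ E0 with
    el := Dig p
    pw := p
    el_comp := H.1
    el_lt := H.2.1
    el_sub := H.2.2.1
    el_pw := H.2.2.2.1
    pw_comp := hp
    c_code := H.2.2.2.2 }, rfl, fun x a => Iff.rfl⟩

end Pool.Agent.CTW
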