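import Pool.Agent.CTW.St

/-!
# CTW: powers of two and remainders in a model (helper81)
-/

set_option autoImplicit false

namespace Pool.Agent.CTW

open RT22P RT22P.Env

namespace Modx

variable {M : Type} [Env1 M]

private lemma mod_ind {P : M → Prop} (hP : Comp M P) (h0 : P 0) (h1 : ∀ x, P x → P (x + 1))
    (x : M) : P x :=
  Env0.sind (P := P) ⟨fun q => P q.1, by fun_prop, fun v => ⟨fun h => ⟨0, h⟩, fun ⟨_, h⟩ => h⟩⟩
    h0 h1 x

private lemma mod_div (a d : M) (hd : 0 < d) : ∃ q, q ≤ a ∧ ∃ r, r < d ∧ a = q * d + r := by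
  refine mod_ind (P := fun a => ∃ q, q ≤ a ∧ ∃ r, r < d ∧ a = q * d + r) (by fun_prop)
    ⟨0, le_rfl, 0, hd, by simp⟩ ?_ a
  rintro a ⟨q, hq, r, hr, h⟩
  rcases (Arith.succ_le hr).lt_or_eq with h1 | h1
  · exact ⟨q, hq.trans (le_self_add), r + 1, h1, by rw [h]; ring⟩
  · refine ⟨q + 1, by gcongr, 0, hd, ?_⟩
    calc a + 1 = q * d + (r + 1) := by rw [h]; ring
      _ = (q + 1) * d + 0 := by rw [h1]; ring

private lemma mod_exists_p : ∃ p : M → M, Comp M p ∧ p 0 = 1 ∧ ∀ n, p (n + 1) = p n + p n := by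
  obtain ⟨F, hF, h0, h1⟩ := Env1.c_prec (M := M) (Γ := M) (g := fun _ => 1)
    (h := fun q => q.2.2 + q.2.2) (by fun_prop) (by fun_prop)
  exact ⟨fun x => F (0, x), by fun_prop, h0 0, fun n => h1 0 n⟩

private lemma mod_pos {p : M → M} (hp : Comp M p) (h0 : p 0 = 1)
    (h1 : ∀ n, p (n + 1) = p n + p n) (n : M) : 0 < p n := by
  refine mod_ind (P := fun n => 0 < p n) (by fun_prop) (by rw [h0]; exact one_pos)
    (fun x hx => ?_) n
  rw [h1]
  exact lt_of_lt_of_le hx le_self_add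

theorem mod_main : ∃ (p : M → M) (r : M → M → M), Comp M p ∧
    Comp M (fun q : M × M => r q.1 q.2) ∧ p 0 = 1 ∧ (∀ n, p (n + 1) = p n + p n) ∧
    (∀ L j, r L j < p j) ∧ ∀ L j, ∃ q, L = q * p j + r L j := by
  obtain ⟨p, hp, h0, h1⟩ := mod_exists_p (M := M)
  obtain ⟨F, hF, h⟩ := Env0.c_search (M := M)
    (P := fun q : (M × M) × M => q.2 < p q.1.2 ∧ ∃ y, y ≤ q.1.1 ∧ q.1.1 = y * p q.1.2 + q.2)
    (by fun_prop) (fun v => by
      obtain ⟨q, hq, r, hr, he⟩ := mod_div v.1 (p v.2) (mod_pos hp h0 h1 v.2)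
      exact ⟨r, hr, q, hq, he⟩)
  refine ⟨p, fun L j => F (L, j), hp, by fun_prop, h0, h1, fun L j => (h (L, j)).1.1,
    fun L j => ?_⟩
  obtain ⟨q, -, he⟩ := (h (L, j)).1.2
  exact ⟨q, he⟩

end Modx

theorem thm_Mod : St_Mod := by
  intro M _
  obtain ⟨p, r, h1, h2, h3, h4, h5, h6⟩ := Modx.mod_main (M := M)
  exact ⟨p, r, ⟨h1, h2, h3, h4, h5, h6⟩⟩

end Pool.Agent.CTW
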