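import Pool.Agent.CTW.St

/-!
Project CTW, module POS (helper51): six facts on the positions `Pos p r L t i`, with `p n = 2 ^ n`,
`r L j = L mod 2 ^ j`.
-/

set_option autoImplicit false

namespace Pool.Agent.CTW

open RT22P RT22P.Env

namespace Posx

variable {M : Type} [Env M] {p : M → M} {r : M → M → M}

theorem ppos (h : PRem p r) (n : M) : 0 < p n := by
  have hc := h.cp
  refine cind (P := fun n => 0 < p n) (by fun_prop) ?_ (fun x hx => ?_) n
  · show 0 < p 0
    rw [h.p0]
    exact one_pos
  · show 0 < p (x + 1)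
    rw [h.ps]
    exact add_pos hx hx

theorem pgt (h : PRem p r) (n : M) : n < p n := by
  have hc := h.cp
  refine cind (P := fun n => n < p n) (by fun_prop) ?_ (fun x hx => ?_) n
  · show 0 < p 0
    rw [h.p0]
    exact one_pos
  · show x + 1 < p (x + 1)
    rw [h.ps]
    exact lt_of_le_of_lt (Arith.succ_le hx) (lt_add_of_pos_right _ (ppos h x))

theorem padd (h : PRem p r) (x j : M) : p (x + j) = p x * p j := by
  have hc := h.cp
  refine cind (P := fun j => p (x + j) = p x * p j) (by fun_prop) ?_ (fun j hj => ?_) j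
  · show p (x + 0) = p x * p 0
    rw [h.p0, add_zero, mul_one]
  · show p (x + (j + 1)) = p x * p (j + 1)
    rw [← add_assoc, h.ps, h.ps, hj]
    ring

theorem one_le (h : PRem p r) (n : M) : 1 ≤ p n := by
  have h1 := Arith.succ_le (ppos h n)
  rwa [zero_add] at h1

theorem pmono (h : PRem p r) {x y : M} (hxy : x ≤ y) : p x ≤ p y := by
  obtain ⟨j, rfl⟩ := exists_add_of_le hxy
  rw [padd h]
  exact le_mul_of_one_le_right (zero_le' _) (one_le h j)

theorem uniq {q q' x x' d : M} (hx : x < d) (hx' : x' < d) (h : q * d + x = q' * d + x') :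
    q = q' ∧ x = x' := by
  have key : ∀ {q q' r r' : M}, r < d → q * d + r = q' * d + r' → ¬ q < q' := by
    intro q q' r r' hr h hlt
    have h1 : (q + 1) * d ≤ q' * d := by
      have := Arith.succ_le hlt
      gcongr
    have h2 : q * d + r < q' * d + r' :=
      calc q * d + r < q * d + d := by gcongr
        _ = (q + 1) * d := by ring
        _ ≤ q' * d := h1
        _ ≤ q' * d + r' := le_self_add
    exact absurd h h2.ne
  have hq : q = q' := le_antisymm (not_lt.1 (key hx' h.symm)) (not_lt.1 (key hx h))
  subst hq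
  exact ⟨rfl, add_left_cancel h⟩

theorem req (h : PRem p r) {L j q x : M} (hL : L = q * p j + x) (hx : x < p j) : r L j = x := by
  obtain ⟨q', hq'⟩ := h.rq L j
  have h1 : q' * p j + r L j = q * p j + x := by rw [← hq', ← hL]
  exact (uniq (h.rlt L j) hx h1).2

theorem rsmall (h : PRem p r) {L j : M} (hL : L < p j) : r L j = L :=
  req h (q := 0) (by rw [zero_mul, zero_add]) hL

theorem rle (h : PRem p r) (L j : M) : r L j ≤ L := by
  obtain ⟨q, hq⟩ := h.rq L j
  calc r L j ≤ q * p j + r L j := le_add_self
    _ = L := hq.symm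

/-- (A) the remainder of a sum, high part -/
theorem rA (h : PRem p r) {a κ j : M} (q : M) (ha : a < p κ) (hj : κ ≤ j) :
    r (a + q * p κ) j = a + r (q * p κ) j := by
  obtain ⟨x, rfl⟩ := exists_add_of_le hj
  obtain ⟨u, hu⟩ := h.rq q x
  have hv := h.rlt q x
  have h1 : (r q x + 1) * p κ ≤ p (κ + x) := by
    rw [padd h, mul_comm (p κ)]
    have := Arith.succ_le hv
    gcongr
  have h2 : a + r q x * p κ < p (κ + x) := by
    calc a + r q x * p κ < p κ + r q x * p κ := by gcongr
      _ = (r q x + 1) * p κ := by ring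
      _ ≤ p (κ + x) := h1
  have h3 : r q x * p κ < p (κ + x) := lt_of_le_of_lt le_add_self h2
  have h4 : q * p κ = u * p (κ + x) + r q x * p κ := by
    have e : q * p κ = (u * p x + r q x) * p κ := by rw [← hu]
    rw [e, padd h]
    ring
  have h5 : a + q * p κ = u * p (κ + x) + (a + r q x * p κ) := by
    rw [h4]
    ring
  rw [req h h4 h3, req h h5 h2]

/-- (B) the remainder of a sum, low part -/
theorem rB (h : PRem p r) {κ j : M} (a q : M) (hj : j ≤ κ) : r (a + q * p κ) j = r a j := by
  obtain ⟨x, rfl⟩ := exists_add_of_le hj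
  obtain ⟨u, hu⟩ := h.rq a j
  refine req h (q := u + q * p x) ?_ (h.rlt a j)
  have e : a + q * p (j + x) = (u * p j + r a j) + q * p (j + x) := by rw [← hu]
  rw [e, padd h]
  ring

theorem r0 (h : PRem p r) {κ j : M} (q : M) (hj : j ≤ κ) : r (q * p κ) j = 0 := by
  have h1 := rB h 0 q hj
  rw [zero_add] at h1
  rw [h1]
  exact rsmall h (ppos h j)

/-- the window of a position -/
theorem window (h : PRem p r) {L t i j : M} (h1 : t < r L j) (h2 : i + t = p j + r L j) :
    p j < i ∧ i < p (j + 1) := by
  constructor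
  · have h3 : p j + t < i + t := by
      rw [h2]
      gcongr
    exact lt_of_add_lt_add_right h3
  · calc i ≤ i + t := le_self_add
      _ = p j + r L j := h2
      _ < p j + p j := by
        have := h.rlt L j
        gcongr
      _ = p (j + 1) := (h.ps j).symm

theorem win_lt (h : PRem p r) {i j j' : M} (h1 : i < p (j + 1)) (h2 : p j' < i) : ¬ j < j' := by
  intro h3
  have h4 : p (j + 1) ≤ p j' := pmono h (Arith.succ_le h3)
  exact lt_irrefl i (lt_of_lt_of_le h1 (h4.trans h2.le))

theorem least (h : PRem p r) (L t : M) (ht : t < L) :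
    ∃ j, j ≤ L ∧ t < r L j ∧ ∀ j', j' < j → r L j' ≤ t := by
  have hcr := h.cr
  have hc : Comp M (fun q : M × M => t < r L q.2) := by
    have h1 : Comp M (fun q : M × M => r L q.2) :=
      comp_comp (fun q : M × M => r q.1 q.2) (fun q : M × M => (L, q.2)) hcr (by fun_prop)
    exact comp_lt (fun _ => t) _ (by fun_prop) h1
  have hL : t < r L L := by rw [rsmall h (pgt h L)]; exact ht
  obtain ⟨f, -, hf⟩ := search_min (M := M) (P := fun (_ : M) j => t < r L j) hc
    (fun _ => ⟨L, hL⟩)
  obtain ⟨h1, h2⟩ := hf 0
  exact ⟨f 0, not_lt.1 fun h3 => h2 L h3 hL, h1, fun j' hj' => not_lt.1 (h2 j' hj')⟩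

end Posx

open Posx

/-- [POS] facts on positions -/
theorem thm_Pos : St_Pos := by
  intro M _ p r h
  refine ⟨pgt h, ?_, ?_, ?_, ?_, ?_⟩
  · intro L t ht
    obtain ⟨j, hj, h1, h2⟩ := least h L t ht
    obtain ⟨s, hs⟩ := exists_add_of_le h1.le
    refine ⟨p j + s, ?_, j, h1, h2, ?_⟩
    · have h3 : p j ≤ p L := pmono h hj
      have h4 : s ≤ p L := by
        calc s ≤ t + s := le_add_self
          _ = r L j := hs.symm
          _ ≤ p j := (h.rlt L j).le
          _ ≤ p L := h3
      exact add_le_add h3 h4
    · rw [hs]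
      ring
  · rintro L t i i' ⟨j, h1, h2, h3⟩ ⟨j', h1', h2', h3'⟩
    have hj : j = j' := by
      rcases lt_trichotomy j j' with h4 | h4 | h4
      · exact absurd (h2' j h4) (not_le.2 h1)
      · exact h4
      · exact absurd (h2 j' h4) (not_le.2 h1')
    rw [← hj, ← h3] at h3'
    exact (add_right_cancel h3').symm
  · rintro L t t' i ⟨j, h1, h2, h3⟩ ⟨j', h1', h2', h3'⟩
    obtain ⟨w1, w2⟩ := window h h1 h3
    obtain ⟨w1', w2'⟩ := window h h1' h3'
    have hj : j = j' := by
      rcases lt_trichotomy j j' with h4 | h4 | h4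
      · exact absurd h4 (win_lt h w2 w1')
      · exact h4
      · exact absurd h4 (win_lt h w2' w1)
    rw [← hj, ← h3] at h3'
    exact (add_left_cancel h3').symm
  · rintro κ κ' b q t i hb hb' ⟨j, h1, h2, h3⟩
    obtain ⟨w1, w2⟩ := window h h1 h3
    have hj1 : κ < j := by
      by_contra hc
      have h4 : r b j = 0 := by
        rw [hb]
        exact r0 h q (not_lt.1 hc)
      rw [h4] at h1
      exact not_lt_zero' t h1
    have hj2 : j ≤ κ' := by
      by_contra hc
      have h4 := h2 κ' (not_le.1 hc)
      rw [rsmall h hb'] at h4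
      exact absurd (h4.trans_lt h1) (not_lt.2 (rle h b j))
    constructor
    · exact lt_of_le_of_lt (pmono h (Arith.succ_le hj1)) w1
    · refine lt_of_lt_of_le w2 (pmono h ?_)
      gcongr
  · intro a b c κ κ' q q' t i ha hb hb' hc ht
    have hb0 : r b κ' = b := rsmall h hb'
    have hκ : κ ≤ κ' := by
      by_contra hcon
      have h1 : r b κ' = 0 := by
        rw [hb]
        exact r0 h q (not_le.1 hcon).le
      rw [hb0] at h1
      rw [h1] at ht
      exact not_lt_zero' t ht
    -- the remainders of the three words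
    have hlow : ∀ j, j ≤ κ → r (a + b + c) j ≤ a := by
      intro j hj
      rw [hc, rB h (a + b) q' (hj.trans hκ), hb, rB h a q hj]
      exact rle h a j
    have hlow' : ∀ j, j ≤ κ → r b j = 0 := by
      intro j hj
      rw [hb]
      exact r0 h q hj
    have hhigh : ∀ j, κ ≤ j → j ≤ κ' → r (a + b + c) j = a + r b j := by
      intro j hj hj'
      rw [hc, rB h (a + b) q' hj', hb, rA h q ha hj]
    have hiff : ∀ j, j ≤ κ' → (a + t < r (a + b + c) j ↔ t < r b j) := by
      intro j hj
      rcases le_total j κ with h1 | h1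
      · rw [hlow' j h1]
        constructor
        · intro h2
          exact absurd (h2.trans_le (hlow j h1)) (not_lt.2 le_self_add)
        · intro h2
          exact absurd h2 (not_lt_zero' t)
      · rw [hhigh j h1 hj]
        exact add_lt_add_iff_left a
    have hκ' : a + t < r (a + b + c) κ' := by
      rw [hiff κ' le_rfl, hb0]
      exact ht
    -- the window is at least `κ`
    have hwin : ∀ j, j ≤ κ' → t < r b j → κ ≤ j := by
      intro j hj h1
      by_contra hcon
      rw [hlow' j (not_le.1 hcon).le] at h1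
      exact not_lt_zero' t h1
    constructor
    · rintro ⟨j, h1, h2, h3⟩
      have hj : j ≤ κ' := by
        by_contra hcon
        exact absurd (h2 κ' (not_le.1 hcon)) (not_le.2 hκ')
      have h4 := (hiff j hj).1 h1
      refine ⟨j, h4, fun j' hj' => ?_, ?_⟩
      · have h5 := h2 j' hj'
        by_contra hcon
        exact absurd h5 (not_le.2 ((hiff j' (hj'.le.trans hj)).2 (not_le.1 hcon)))
      · rw [hhigh j (hwin j hj h4) hj] at h3
        have h6 : a + (i + t) = a + (p j + r b j) := by
          calc a + (i + t) = i + (a + t) := by ring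
            _ = p j + (a + r b j) := h3
            _ = a + (p j + r b j) := by ring
        exact add_left_cancel h6
    · rintro ⟨j, h1, h2, h3⟩
      have hj : j ≤ κ' := by
        by_contra hcon
        have h4 := h2 κ' (not_le.1 hcon)
        rw [hb0] at h4
        exact absurd ht (not_lt.2 h4)
      refine ⟨j, (hiff j hj).2 h1, fun j' hj' => ?_, ?_⟩
      · have h5 := h2 j' hj'
        by_contra hcon
        exact absurd h5 (not_le.2 ((hiff j' (hj'.le.trans hj)).1 (not_le.1 hcon)))
      · rw [hhigh j (hwin j hj h1) hj]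
        calc i + (a + t) = a + (i + t) := by ring
          _ = a + (p j + r b j) := by rw [h3]
          _ = p j + (a + r b j) := by ring

end Pool.Agent.CTW
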