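import Pool.Agent.CTW.Fwd
import Pool.Agent.CTW.Dig
import Pool.Agent.CTW.Mod
import Pool.Agent.CTW.Pos
import Pool.Agent.CTW.Blk
import Pool.Agent.CTW.Cat
import Pool.Agent.CTW.Bck

/-!
Assembly: over `RCA_0`, Carlson's theorem for words is equivalent to Carlson's theorem for located words.
-/

set_option autoImplicit false

namespace Pool.Agent.CTW

open RT22P RT22P.Env

theorem core (M : Type) [Env M] (k c : M) :
    CTE (Arith.S (M := M)) el k c ↔ CTlocE (Arith.S (M := M)) el k c :=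
  ⟨thm_Fwd thm_Mod thm_Pos thm_Blk (thm_Lam thm_Pos) thm_Cat M k c, thm_Bck M k c⟩

theorem core1 (M : Type) [E0 : Env1 M] (k c : M) (p : M → M)
    (hp : IsPow (Arith.S (M := M)) p) :
    CTE (Arith.S (M := M)) (Dig p) k c ↔ CTlocE (Arith.S (M := M)) (Dig p) k c := by
  have h1 : Comp M p := (@fn_iff M (envOf M) p).1 hp.1
  obtain ⟨E, hE, hel⟩ := thm_Dig M p h1 hp.2.1 hp.2.2
  subst hE
  have h2 : (fun x a : M => E.el x a) = Dig p := by
    funext x a
    exact propext (hel x a)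
  rw [← h2]
  exact @core M E k c

theorem isPow_unique (M : Type) [Env M] : ∃! p : M → M, IsPow (Arith.S (M := M)) p := by
  obtain ⟨p, r, h⟩ := thm_Mod M
  refine ⟨p, ⟨fn_iff.2 h.cp, h.p0, h.ps⟩, fun p' hp' => ?_⟩
  have hc := fn_iff.1 hp'.1
  have hc2 := h.cp
  funext x
  refine cind (P := fun x => p' x = p x) (comp_eq _ _ hc hc2) ?_ ?_ x
  · rw [hp'.2.1, h.p0]
  · intro x hx
    rw [hp'.2.2, h.ps, hx]

theorem raw {M : Type} [Zero M] [One M] [Add M] [Mul M] [LT M] {S : Set (Set M)}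
    (hS : IsRCA0 S) : (∃! p, IsPow S p) ∧ ∀ k c : M, CT S k c ↔ CTloc S k c :=
  bridge hS (fun _ _ _ _ _ S => (∃! p, IsPow S p) ∧ ∀ k c, CT S k c ↔ CTloc S k c)
    (fun E => ⟨@isPow_unique M E, fun k c =>
      ⟨fun h p hp => (@core1 M E.toEnv1 k c p hp).1 (h p hp),
       fun h p hp => (@core1 M E.toEnv1 k c p hp).2 (h p hp)⟩⟩)

end Pool.Agent.CTW
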