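import Pool.Agent.CTW.FwdB

/-!
Carlson's theorem for words implies Carlson's theorem for located words.
-/

set_option autoImplicit false

namespace Pool.Agent.CTW

open RT22P RT22P.Env

variable {M : Type} [Env M] {Γ Δ : Type} [Enc M Γ] [Enc M Δ]

/-- the code of `g'` -/
theorem Blk1.code {p l P α β : M → M} (h : Blk1 p l P α β) {k g : M} (hg : LocWord el k g) :
    ∃ g', LocWord el k g' ∧ ∀ m b, Val el g' m b ↔ ∃ n, Val el g n b ∧ α n ≤ m ∧ m < β (n + 1) := by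
  have hcα := h.cα
  have hcβ := h.cβ
  obtain ⟨F, -, hF⟩ := exists_pf (M := M) (Γ := M)
    (R := fun _ m b => ∃ n, n < g ∧ (Val el g n b ∧ α n ≤ m ∧ m < β (n + 1)))
    (b := fun _ => β g) (k := fun _ => k) (by
      refine comp_bex (fun q : (M × M) × M => g)
        (fun q n => Val el g n q.2 ∧ α n ≤ q.1.2 ∧ q.1.2 < β (n + 1)) (by fun_prop) ?_
      refine comp_and _ _ (by fun_prop) (comp_and _ _ ?_ ?_)
      · exact comp_le _ _ (comp_comp α _ hcα (by fun_prop)) (by fun_prop)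
      · exact comp_lt _ _ (by fun_prop) (comp_comp β _ hcβ (by fun_prop)))
    (by fun_prop) (by fun_prop)
  have key : ∀ m b, Val el (F 0) m b ↔ ∃ n, Val el g n b ∧ α n ≤ m ∧ m < β (n + 1) := by
    intro m b
    rw [(hF 0).2 m b]
    constructor
    · rintro ⟨-, -, n, -, h1⟩
      exact ⟨n, h1⟩
    · rintro ⟨n, h1, h2, h3⟩
      refine ⟨lt_of_lt_of_le h3 (h.mono (Arith.succ_le (val_lt h1).1)), loc_val_lt hg h1, n,
        (val_lt h1).1, h1, h2, h3⟩
  refine ⟨F 0, ⟨(hF 0).1, fun m u v hu hv => ?_, ?_⟩, key⟩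
  · obtain ⟨n, h1, h2, h3⟩ := (key m u).1 hu
    obtain ⟨n', h1', h2', h3'⟩ := (key m v).1 hv
    have h4 := h.uniq ((h.b1 n).trans h2) h3 ((h.b1 n').trans h2') h3'
    subst h4
    exact hg.fn _ _ _ h1 h1'
  · obtain ⟨n, b, hb⟩ := hg.ne
    exact ⟨α n, b, (key _ b).2 ⟨n, hb, le_rfl, h.b2 n⟩⟩

theorem thm_Fwd (hMod : St_Mod) (hPos : St_Pos) (hBlk : St_Blk) (hLam : St_Lam)
    (hCat : St_Cat) : St_Fwd := by
  intro M _ k c hCT f hf hfc
  obtain ⟨p, r, hp⟩ := hMod M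
  obtain ⟨hlt, -, -, -, hwin, hadd⟩ := hPos M p r hp
  obtain ⟨Λ, hΛ, hΛ'⟩ := hLam M p r hp
  have hfC := fn_iff.1 hf
  obtain ⟨w, l, hw, hl, hvw, d, hd⟩ := hCT (fun e => f (Λ e))
    (fn_iff.2 (comp_comp f _ hfC hΛ)) (fun a => hfc _)
  have hwC := fn_iff.1 hw
  have hlC := fn_iff.1 hl
  have hww : ∀ n, Word el (k + 1) (l n) (w n) := fun n => (hvw n).1
  obtain ⟨P, α, β, hPc, hαc, hβc, P0, Ps, β0, hb⟩ := hBlk M p r hp l hlC
    (fun n => word_pos (hww n))
  have hB : Blk1 p l P α β := ⟨⟨hlC, hPc, P0, Ps⟩, hαc, hβc, fun n => (hb n).1,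
    fun n => (hb n).2.1, fun n => (hb n).2.2⟩
  obtain ⟨L, hLc, hL⟩ := hB.len
  obtain ⟨U, hUc, hUw, hU⟩ := hB.word hwC hww hL
  have hlen : ∀ n, L n < p (P (β (n + 1))) := fun n =>
    lt_of_le_of_lt (by rw [← hL n]; exact le_self_add) (hlt (P (β (n + 1))))
  refine ⟨fun n => Λ (U n), fn_iff.2 (comp_comp Λ _ hΛ hUc), fun n => ⟨(hΛ' _ _ _ (hUw n)).1, ?_⟩,
    ?_, d, ?_⟩
  · -- the symbol star
    obtain ⟨t, ht⟩ := (hvw (α n)).2
    have h1 : Val el (U n) t k := (hU n t k).2 ⟨α n, t, le_rfl, hB.b2 n, add_comm _ _, ht⟩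
    obtain ⟨i, -, hi⟩ := (hPos M p r hp).2.1 (L n) t (((hUw n).2 t).1 ⟨k, h1⟩)
    exact ⟨i, ((hΛ' _ _ _ (hUw n)).2 i k).2 ⟨t, h1, hi⟩⟩
  · -- blocks
    rintro m n i j hmn ⟨u, hu⟩ ⟨v, hv⟩
    obtain ⟨t, -, ht⟩ := ((hΛ' _ _ _ (hUw m)).2 i u).1 hu
    obtain ⟨t', -, ht'⟩ := ((hΛ' _ _ _ (hUw n)).2 j v).1 hv
    obtain ⟨q, hq⟩ := hB.len_dvd hL m
    obtain ⟨q', hq'⟩ := hB.len_dvd hL n
    have h1 := (hwin _ _ _ _ _ _ hq (hlen m) ht).2
    have h2 := (hwin _ _ _ _ _ _ hq' (hlen n) ht').1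
    have h3 : P (β (m + 1)) + 1 ≤ P (β n) + 1 :=
      add_le_add_left (hB.pre.mono (hB.mono (Arith.succ_le hmn))) 1
    exact lt_of_lt_of_le h1 ((hp.mono h3).trans h2.le)
  · -- homogeneity
    intro g W hg hW
    obtain ⟨g', hg', hgv⟩ := hB.code hg
    obtain ⟨W', s, hsc, s0, sst, hWv, hWw, hsN⟩ := hCat M k w l hwC hlC hww g' hg'
    have hC : Cat1 p l P α β g g' s := ⟨hB, hgv, hsc, s0, sst⟩
    have h1 := hd g' W' hg' ⟨⟨_, hWw⟩, s, fn_iff.2 hsc, s0, sst, hWv⟩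
    have hΛW := hΛ' k (s g') W' hWw
    have hE : Λ W' = W := by
      refine loc_ext hΛW.1 hW.1 fun i u => ?_
      rw [hΛW.2 i u, hW.2 i u]
      -- values of `U n [b]` and of `y n [b]`
      have hUs : ∀ n b t, SubVal el k (U n) b t u ↔ ∃ x : M × M, (α n ≤ x.1 ∧ x.1 < β (n + 1) ∧
          t + P (α n) = P x.1 + x.2) ∧ SubVal el k (w x.1) b x.2 u := by
        intro n b t
        refine subVal_congr (a' := fun x : M × M => w x.1) (i' := fun x : M × M => x.2)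
          fun v => ?_
        rw [hU n t v]
        constructor
        · rintro ⟨m, s1, h2, h3, h4, h5⟩
          exact ⟨(m, s1), ⟨h2, h3, h4⟩, h5⟩
        · rintro ⟨⟨m, s1⟩, ⟨h2, h3, h4⟩, h5⟩
          exact ⟨m, s1, h2, h3, h4, h5⟩
      have hys : ∀ n b, SubVal el k (Λ (U n)) b i u ↔ ∃ t, Pos p r (L n) t i ∧
          SubVal el k (U n) b t u := by
        intro n b
        refine subVal_congr (a' := fun _ : M => U n) (i' := fun t : M => t) fun v => ?_
        rw [(hΛ' _ _ _ (hUw n)).2 i v]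
        constructor
        · rintro ⟨t, h2, h3⟩
          exact ⟨t, h3, h2⟩
        · rintro ⟨t, h2, h3⟩
          exact ⟨t, h3, h2⟩
      -- positions
      have hpos : ∀ n t, InDom el g n → t < L n →
          (Pos p r (s g') (s (β n) + t) i ↔ Pos p r (L n) t i) := by
        intro n t hn ht
        obtain ⟨q, hq⟩ := hB.len_dvd hL n
        obtain ⟨q', hq'⟩ := hC.tail hp (n + 1) g'
        have h2 : s (β (n + 1 + g')) = s g' :=
          hsN _ (le_trans (le_add_self) (hB.ge _))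
        rw [h2, hC.on_end hL hn] at hq'
        rw [hq']
        exact hadd (s (β n)) (L n) (q' * p (P (β (n + 1)))) (P (β n)) (P (β (n + 1))) q q' t i
          (lt_of_le_of_lt (hC.le _) (hlt _)) hq (hlen n) rfl ht
      constructor
      · rintro ⟨t, h2, h3⟩
        obtain ⟨m, b, s1, h4, h5, h6⟩ := (hWv t u).1 h2
        obtain ⟨n, h7, h8, h9⟩ := (hgv m b).1 h4
        obtain ⟨x, hx⟩ := exists_add_of_le (hB.pre.mono h8)
        have h10 : x + s1 + P (α n) = P m + s1 := by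
          rw [hx]; ring
        have h11 : SubVal el k (U n) b (x + s1) u := (hUs n b (x + s1)).2
          ⟨(m, s1), ⟨h8, h9, h10⟩, h6⟩
        have h12 : t = s (β n) + (x + s1) := by
          have h13 := hC.on ⟨b, h7⟩ h8 h9.le
          have h14 : s m = s (β n) + x := by
            rw [hx, ← add_assoc, add_right_comm] at h13
            exact add_right_cancel h13
          rw [h5, h14, add_assoc]
        refine ⟨n, b, h7, (hys n b).2 ⟨x + s1, ?_, h11⟩⟩
        rw [h12] at h3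
        exact (hpos n (x + s1) ⟨b, h7⟩ (((hUw n).2 _).1 (subVal_dom h11))).1 h3
      · rintro ⟨n, b, h2, h3⟩
        obtain ⟨t, h4, h5⟩ := (hys n b).1 h3
        obtain ⟨⟨m, s1⟩, ⟨h6, h7, h8⟩, h9⟩ := (hUs n b t).1 h5
        simp only at h6 h7 h8 h9
        have h10 : s (β n) + t = s m + s1 := by
          have h13 := hC.on ⟨b, h2⟩ h6 h7.le
          have h14 : s (β n) + t + P (α n) = s m + s1 + P (α n) := by
            calc s (β n) + t + P (α n) = s (β n) + (t + P (α n)) := add_assoc _ _ _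
              _ = s (β n) + (P m + s1) := by rw [h8]
              _ = (s (β n) + P m) + s1 := (add_assoc _ _ _).symm
              _ = (s m + P (α n)) + s1 := by rw [h13]
              _ = s m + s1 + P (α n) := add_right_comm _ _ _
          exact add_right_cancel h14
        refine ⟨s (β n) + t, (hWv _ u).2 ⟨m, b, s1, (hgv m b).2 ⟨n, h2, h6, h7⟩, h10, h9⟩, ?_⟩
        exact (hpos n t ⟨b, h2⟩ (((hUw n).2 _).1 (subVal_dom h5))).2 h4
    rw [← hE]
    exact h1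

end Pool.Agent.CTW
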