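import Pool.Agent.CTW.Lam

/-!
Initial sums, blocks, the words `U n` (concatenations of the blocks) and the located words `y n`.
-/

set_option autoImplicit false

namespace Pool.Agent.CTW

open RT22P RT22P.Env

variable {M : Type} [Env M] {Γ Δ : Type} [Enc M Γ] [Enc M Δ]

/-- initial sums -/
structure Pre1 (l P : M → M) : Prop where
  cl : Comp M l
  cP : Comp M P
  P0 : P 0 = 0
  Ps : ∀ m, P (m + 1) = P m + l m

theorem mono_of_step {f : M → M} (hf : Comp M f) (h : ∀ n, f n ≤ f (n + 1)) {m n : M}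
    (hmn : m ≤ n) : f m ≤ f n := by
  obtain ⟨x, rfl⟩ := exists_add_of_le hmn
  refine cind (P := fun x => f m ≤ f (m + x)) ?_ ?_ ?_ x
  · exact comp_le _ _ (by fun_prop) (comp_comp f (fun x : M => m + x) hf (by fun_prop))
  · rw [add_zero]
  · intro x hx
    rw [← add_assoc]
    exact hx.trans (h _)

theorem Pre1.mono {l P : M → M} (h : Pre1 l P) {m n : M} (hmn : m ≤ n) : P m ≤ P n :=
  mono_of_step h.cP (fun n => by rw [h.Ps]; exact le_self_add) hmn

theorem Pre1.dec {l P : M → M} (h : Pre1 l P) {j N : M} (hj : j < P N) :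
    ∃ m s, m < N ∧ s < l m ∧ j = P m + s := by
  obtain ⟨n, hn, hmin⟩ := leastC (P := fun n => j < P n)
    (comp_lt _ _ (by fun_prop) h.cP) ⟨N, hj⟩
  rcases zero_or_succ n with rfl | ⟨m, rfl⟩
  · rw [h.P0] at hn
    exact absurd hn (not_lt_zero' j)
  · have h1 : P m ≤ j := not_lt.1 (hmin m (lt_self_succ m))
    obtain ⟨s, rfl⟩ := exists_add_of_le h1
    refine ⟨m, s, ?_, ?_, rfl⟩
    · by_contra hc
      have h2 := h.mono (not_lt.1 hc)
      exact absurd (lt_of_lt_of_le hj (h2.trans h1)) (lt_irrefl _)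
    · rw [h.Ps] at hn
      exact lt_of_add_lt_add_left hn

theorem Pre1.uniq {l P : M → M} (h : Pre1 l P) {m m' s s' : M} (hs : s < l m) (hs' : s' < l m')
    (he : P m + s = P m' + s') : m = m' ∧ s = s' := by
  have key : ∀ {m m' s s' : M}, s < l m → P m + s = P m' + s' → ¬ m < m' := by
    intro m m' s s' hs he hlt
    have h1 := h.mono (Arith.succ_le hlt)
    rw [h.Ps] at h1
    have h2 : P m + s < P m' + s' :=
      lt_of_lt_of_le (add_lt_add_right hs _) (h1.trans le_self_add)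
    exact absurd he h2.ne
  have h1 : m = m' := le_antisymm (not_lt.1 (key hs' he.symm)) (not_lt.1 (key hs he))
  subst h1
  exact ⟨rfl, add_left_cancel he⟩

/-- blocks -/
structure Blk1 (p l P α β : M → M) : Prop where
  pre : Pre1 l P
  cα : Comp M α
  cβ : Comp M β
  b1 : ∀ n, β n ≤ α n
  b2 : ∀ n, α n < β (n + 1)
  b3 : ∀ n, ∃ q, P (β (n + 1)) = P (α n) + q * p (P (β n))

theorem Blk1.mono {p l P α β : M → M} (h : Blk1 p l P α β) {m n : M} (hmn : m ≤ n) :
    β m ≤ β n :=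
  mono_of_step h.cβ (fun n => (h.b1 n).trans (h.b2 n).le) hmn

theorem Blk1.ge {p l P α β : M → M} (h : Blk1 p l P α β) (n : M) : n ≤ β n := by
  refine cind (P := fun n => n ≤ β n) (comp_le _ _ (by fun_prop) h.cβ) (zero_le' _) ?_ n
  intro x hx
  exact Arith.succ_le (lt_of_le_of_lt (hx.trans (h.b1 x)) (h.b2 x))

/-- the block of `m` is unique -/
theorem Blk1.uniq {p l P α β : M → M} (h : Blk1 p l P α β) {n n' m : M} (h1 : β n ≤ m)
    (h2 : m < β (n + 1)) (h3 : β n' ≤ m) (h4 : m < β (n' + 1)) : n = n' := by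
  have key : ∀ {n n' : M}, β n' ≤ m → m < β (n + 1) → ¬ n < n' := by
    intro n n' h3 h2 hlt
    exact absurd (lt_of_lt_of_le h2 ((h.mono (Arith.succ_le hlt)).trans h3)) (lt_irrefl _)
  exact le_antisymm (not_lt.1 (key h1 h4)) (not_lt.1 (key h3 h2))

/-- lengths of blocks -/
theorem Blk1.len {p l P α β : M → M} (h : Blk1 p l P α β) : ∃ L : M → M, Comp M L ∧
    ∀ n, L n + P (α n) = P (β (n + 1)) := by
  obtain ⟨ts, hts, hts1, -⟩ := exists_tsub M
  refine ⟨fun n => ts (P (β (n + 1))) (P (α n)), ?_, fun n => hts1 _ _ (h.pre.mono (h.b2 n).le)⟩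
  have h1 : Comp M (fun n : M => P (β (n + 1))) :=
    comp_comp P _ h.pre.cP (comp_comp β _ h.cβ (by fun_prop))
  have h2 : Comp M (fun n : M => P (α n)) := comp_comp P _ h.pre.cP h.cα
  exact comp_comp (fun q : M × M => ts q.1 q.2) (fun n => (P (β (n + 1)), P (α n))) hts
    (comp_prod _ _ h1 h2)

/-- the words `U n` -/
theorem Blk1.word {p l P α β : M → M} (h : Blk1 p l P α β) {k : M} {w L : M → M}
    (hw : Comp M w) (hww : ∀ n, Word el k (l n) (w n)) (hL : ∀ n, L n + P (α n) = P (β (n + 1))) :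
    ∃ U : M → M, Comp M U ∧ (∀ n, Word el k (L n) (U n)) ∧
      ∀ n t v, Val el (U n) t v ↔ ∃ m s, α n ≤ m ∧ m < β (n + 1) ∧ t + P (α n) = P m + s ∧
        Val el (w m) s v := by
  have hcl := h.pre.cl
  have hcP := h.pre.cP
  have hcα := h.cα
  have hcβ := h.cβ
  obtain ⟨U, hU, hU'⟩ := exists_pf (M := M) (Γ := M)
    (R := fun n t v => ∃ m, m < β (n + 1) ∧ (α n ≤ m ∧ ∃ s, s < l m ∧
      (t + P (α n) = P m + s ∧ Val el (w m) s v)))
    (b := fun n => P (β (n + 1))) (k := fun _ => k) (by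
      refine comp_bex (fun q : (M × M) × M => β (q.1.1 + 1))
        (fun q m => α q.1.1 ≤ m ∧ ∃ s, s < l m ∧
          (q.1.2 + P (α q.1.1) = P m + s ∧ Val el (w m) s q.2))
        (comp_comp β _ hcβ (by fun_prop)) ?_
      refine comp_and _ _ (comp_le _ _ (comp_comp α _ hcα (by fun_prop)) (by fun_prop)) ?_
      refine comp_bex (fun q : ((M × M) × M) × M => l q.2)
        (fun q s => q.1.1.2 + P (α q.1.1.1) = P q.2 + s ∧ Val el (w q.2) s q.1.2)
        (comp_comp l _ hcl (by fun_prop)) ?_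
      refine comp_and _ _ (comp_eq _ _ (comp_add _ _ (by fun_prop)
        (comp_comp P _ hcP (comp_comp α _ hcα (by fun_prop))))
        (comp_add _ _ (comp_comp P _ hcP (by fun_prop)) (by fun_prop))) ?_
      exact comp_Val _ _ _ (comp_comp w _ hw (by fun_prop)) (by fun_prop) (by fun_prop))
    (comp_comp P _ hcP (comp_comp β _ hcβ (by fun_prop))) (by fun_prop)
  have key : ∀ n t v, Val el (U n) t v ↔ ∃ m s, α n ≤ m ∧ m < β (n + 1) ∧
      t + P (α n) = P m + s ∧ Val el (w m) s v := by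
    intro n t v
    rw [(hU' n).2 t v]
    constructor
    · rintro ⟨-, -, m, h1, h2, s, -, h3, h4⟩
      exact ⟨m, s, h2, h1, h3, h4⟩
    · rintro ⟨m, s, h2, h1, h3, h4⟩
      have h5 : s < l m := ((hww m).2 s).1 ⟨v, h4⟩
      refine ⟨?_, loc_val_lt (hww m).1 h4, m, h1, h2, s, h5, h3, h4⟩
      calc t ≤ t + P (α n) := le_self_add
        _ = P m + s := h3
        _ < P m + l m := add_lt_add_right h5 _
        _ = P (m + 1) := (h.pre.Ps m).symm
        _ ≤ P (β (n + 1)) := h.pre.mono (Arith.succ_le h1)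
  have hdom : ∀ n t, t < L n → InDom el (U n) t := by
    intro n t ht
    have h1 : t + P (α n) < P (β (n + 1)) := by
      rw [← hL n]
      exact add_lt_add_left ht _
    obtain ⟨m, s, h2, h3, h4⟩ := h.pre.dec h1
    obtain ⟨v, hv⟩ := ((hww m).2 s).2 h3
    refine ⟨v, (key n t v).2 ⟨m, s, ?_, h2, h4, hv⟩⟩
    by_contra hc
    have h5 := h.pre.mono (Arith.succ_le (not_le.1 hc))
    rw [h.pre.Ps] at h5
    have h6 : P m + s < P (α n) := lt_of_lt_of_le (add_lt_add_right h3 _) h5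
    rw [← h4] at h6
    exact absurd h6 (not_lt.2 le_add_self)
  refine ⟨U, hU, fun n => ⟨⟨(hU' n).1, fun t u v hu hv => ?_, ?_⟩, fun t => ⟨fun ht => ?_,
    hdom n t⟩⟩, key⟩
  · obtain ⟨m, s, h1, h2, h3, h4⟩ := (key n t u).1 hu
    obtain ⟨m', s', h1', h2', h3', h4'⟩ := (key n t v).1 hv
    have h5 : s < l m := ((hww m).2 s).1 ⟨u, h4⟩
    have h5' : s' < l m' := ((hww m').2 s').1 ⟨v, h4'⟩
    obtain ⟨rfl, rfl⟩ := h.pre.uniq h5 h5' (h3.symm.trans h3')
    exact (hww m).1.fn _ _ _ h4 h4'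
  · refine ⟨0, hdom n 0 ?_⟩
    by_contra hc
    have h1 : L n = 0 := le_antisymm (not_lt.1 hc) (zero_le' _)
    have h2 := hL n
    rw [h1, zero_add] at h2
    have h3 := h.pre.mono (Arith.succ_le (h.b2 n))
    rw [h.pre.Ps, ← h2] at h3
    have h4 := word_pos (hww (α n))
    exact absurd (lt_of_lt_of_le (lt_add_of_pos_right _ h4) h3) (lt_irrefl _)
  · obtain ⟨v, hv⟩ := ht
    obtain ⟨m, s, h1, h2, h3, h4⟩ := (key n t v).1 hv
    have h5 : s < l m := ((hww m).2 s).1 ⟨v, h4⟩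
    have h6 : t + P (α n) < L n + P (α n) := by
      calc t + P (α n) = P m + s := h3
        _ < P m + l m := add_lt_add_right h5 _
        _ = P (m + 1) := (h.pre.Ps m).symm
        _ ≤ P (β (n + 1)) := h.pre.mono (Arith.succ_le h2)
        _ = L n + P (α n) := (hL n).symm
    exact lt_of_add_lt_add_right h6

/-- substitution through a description of the values -/
theorem subVal_congr {X : Type} {k a b i u : M} {Q : X → Prop} {a' i' : X → M}
    (h : ∀ v, Val el a i v ↔ ∃ x, Q x ∧ Val el (a' x) (i' x) v) :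
    SubVal el k a b i u ↔ ∃ x, Q x ∧ SubVal el k (a' x) b (i' x) u := by
  unfold SubVal
  rw [h u, h k]
  constructor
  · rintro (⟨h1, x, h2, h3⟩ | ⟨h1, x, h2, h3⟩)
    · exact ⟨x, h2, Or.inl ⟨h1, h3⟩⟩
    · exact ⟨x, h2, Or.inr ⟨h1, h3⟩⟩
  · rintro ⟨x, h2, ⟨h1, h3⟩ | ⟨h1, h3⟩⟩
    · exact Or.inl ⟨h1, x, h2, h3⟩
    · exact Or.inr ⟨h1, x, h2, h3⟩

end Pool.Agent.CTW
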