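import Pool.Agent.CTW.FwdA

/-!
The lengths of the initial parts of the concatenation over the blocks.
-/

set_option autoImplicit false

namespace Pool.Agent.CTW

open RT22P RT22P.Env

variable {M : Type} [Env M] {Γ Δ : Type} [Enc M Γ] [Enc M Δ]

theorem PRem.dv {p : M → M} {r : M → M → M} (h : PRem p r) {m n : M} (hmn : m ≤ n) :
    ∃ q, p n = q * p m := by
  obtain ⟨x, rfl⟩ := exists_add_of_le hmn
  refine sind (P := fun x => ∃ q, p (m + x) = q * p m) ?_ ?_ ?_ x
  · refine ⟨fun q => p (m + q.1) = q.2 * p m, ?_, fun _ => Iff.rfl⟩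
    exact comp_eq _ _ (comp_comp p _ h.cp (by fun_prop)) (by fun_prop)
  · exact ⟨1, by rw [add_zero, one_mul]⟩
  · rintro x ⟨q, hq⟩
    exact ⟨q + q, by rw [← add_assoc, h.ps, hq]; ring⟩

theorem PRem.mono {p : M → M} {r : M → M → M} (h : PRem p r) {m n : M} (hmn : m ≤ n) :
    p m ≤ p n :=
  mono_of_step h.cp (fun n => by rw [h.ps]; exact le_self_add) hmn

/-- the concatenation over the blocks: `g'` repeats the letter `g n` on the block `n` -/
structure Cat1 (p l P α β : M → M) (g g' : M) (s : M → M) : Prop where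
  blk : Blk1 p l P α β
  hg : ∀ m b, Val el g' m b ↔ ∃ n, Val el g n b ∧ α n ≤ m ∧ m < β (n + 1)
  cs : Comp M s
  s0 : s 0 = 0
  st : ∀ n, (InDom el g' n → s (n + 1) = s n + l n) ∧ (¬ InDom el g' n → s (n + 1) = s n)

variable {p l P α β s : M → M} {g g' : M}

theorem Cat1.dom (h : Cat1 p l P α β g g' s) {n m : M} (h1 : β n ≤ m) (h2 : m < β (n + 1)) :
    InDom el g' m ↔ InDom el g n ∧ α n ≤ m := by
  constructor
  · rintro ⟨b, hb⟩
    obtain ⟨n', h3, h4, h5⟩ := (h.hg m b).1 hb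
    have h6 := h.blk.uniq h1 h2 ((h.blk.b1 n').trans h4) h5
    subst h6
    exact ⟨⟨b, h3⟩, h4⟩
  · rintro ⟨⟨b, hb⟩, h3⟩
    exact ⟨b, (h.hg m b).2 ⟨n, hb, h3, h2⟩⟩

theorem Cat1.le (h : Cat1 p l P α β g g' s) (m : M) : s m ≤ P m := by
  refine cind (P := fun m => s m ≤ P m) (comp_le _ _ h.cs h.blk.pre.cP) ?_ ?_ m
  · rw [h.s0, h.blk.pre.P0]
  · intro x hx
    rw [h.blk.pre.Ps]
    by_cases hd : InDom el g' x
    · rw [(h.st x).1 hd]
      exact add_le_add_left hx _
    · rw [(h.st x).2 hd]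
      exact hx.trans le_self_add

theorem Cat1.gap (h : Cat1 p l P α β g g' s) {n m : M} (h1 : β n ≤ m) (h2 : m ≤ α n) :
    s m = s (β n) := by
  obtain ⟨x, rfl⟩ := exists_add_of_le h1
  have key : ∀ x, β n + x ≤ α n → s (β n + x) = s (β n) := by
    refine cind (P := fun x => β n + x ≤ α n → s (β n + x) = s (β n)) ?_ ?_ ?_
    · exact comp_imp _ _ (by fun_prop) (comp_eq _ _ (comp_comp s _ h.cs (by fun_prop))
        (by fun_prop))
    · intro _
      rw [add_zero]
    · intro x hx hle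
      rw [← add_assoc] at hle ⊢
      have h3 : β n + x < α n := succ_le_iff.1 hle
      rw [(h.st _).2, hx h3.le]
      rw [h.dom le_self_add (h3.trans (h.blk.b2 n))]
      rintro ⟨-, h4⟩
      exact absurd h3 (not_lt.2 h4)
  exact key x h2

theorem Cat1.off (h : Cat1 p l P α β g g' s) {n m : M} (hn : ¬ InDom el g n) (h1 : β n ≤ m)
    (h2 : m ≤ β (n + 1)) : s m = s (β n) := by
  obtain ⟨x, rfl⟩ := exists_add_of_le h1
  have key : ∀ x, β n + x ≤ β (n + 1) → s (β n + x) = s (β n) := by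
    refine cind (P := fun x => β n + x ≤ β (n + 1) → s (β n + x) = s (β n)) ?_ ?_ ?_
    · exact comp_imp _ _ (by fun_prop) (comp_eq _ _ (comp_comp s _ h.cs (by fun_prop))
        (by fun_prop))
    · intro _
      rw [add_zero]
    · intro x hx hle
      rw [← add_assoc] at hle ⊢
      have h3 : β n + x < β (n + 1) := succ_le_iff.1 hle
      rw [(h.st _).2, hx h3.le]
      rw [h.dom le_self_add h3]
      rintro ⟨h4, -⟩
      exact hn h4
  exact key x h2

theorem Cat1.on (h : Cat1 p l P α β g g' s) {n m : M} (hn : InDom el g n) (h1 : α n ≤ m)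
    (h2 : m ≤ β (n + 1)) : s m + P (α n) = s (β n) + P m := by
  obtain ⟨x, rfl⟩ := exists_add_of_le h1
  have key : ∀ x, α n + x ≤ β (n + 1) → s (α n + x) + P (α n) = s (β n) + P (α n + x) := by
    refine cind (P := fun x => α n + x ≤ β (n + 1) →
      s (α n + x) + P (α n) = s (β n) + P (α n + x)) ?_ ?_ ?_
    · refine comp_imp _ _ (by fun_prop) (comp_eq _ _ (comp_add _ _
        (comp_comp s _ h.cs (by fun_prop)) (by fun_prop)) (comp_add _ _ (by fun_prop)
        (comp_comp P _ h.blk.pre.cP (by fun_prop))))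
    · intro _
      rw [add_zero, h.gap (h.blk.b1 n) le_rfl]
    · intro x hx hle
      rw [← add_assoc] at hle ⊢
      have h3 : α n + x < β (n + 1) := succ_le_iff.1 hle
      have h4 : InDom el g' (α n + x) :=
        (h.dom ((h.blk.b1 n).trans le_self_add) h3).2 ⟨hn, le_self_add⟩
      rw [(h.st _).1 h4, h.blk.pre.Ps, add_right_comm, hx h3.le, add_assoc]
  exact key x h2

theorem Cat1.on_end (h : Cat1 p l P α β g g' s) {L : M → M}
    (hL : ∀ n, L n + P (α n) = P (β (n + 1))) {n : M} (hn : InDom el g n) :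
    s (β (n + 1)) = s (β n) + L n := by
  have h1 := h.on hn (h.blk.b2 n).le le_rfl
  rw [← hL n, ← add_assoc] at h1
  exact add_right_cancel h1

theorem Cat1.off_end (h : Cat1 p l P α β g g' s) {n : M} (hn : ¬ InDom el g n) :
    s (β (n + 1)) = s (β n) :=
  h.off hn ((h.blk.b1 n).trans (h.blk.b2 n).le) le_rfl

/-- the length of a block is a multiple of the power at its beginning -/
theorem Blk1.len_dvd (h : Blk1 p l P α β) {L : M → M}
    (hL : ∀ n, L n + P (α n) = P (β (n + 1))) (n : M) : ∃ q, L n = q * p (P (β n)) := by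
  obtain ⟨q, hq⟩ := h.b3 n
  refine ⟨q, ?_⟩
  rw [← hL n, add_comm] at hq
  exact add_left_cancel hq

theorem Cat1.tail {r : M → M → M} (h : Cat1 p l P α β g g' s) (hp : PRem p r) (n x : M) :
    ∃ q, s (β (n + x)) = s (β n) + q * p (P (β n)) := by
  obtain ⟨L, -, hL⟩ := h.blk.len
  refine sind (P := fun x => ∃ q, s (β (n + x)) = s (β n) + q * p (P (β n))) ?_ ?_ ?_ x
  · refine ⟨fun q => s (β (n + q.1)) = s (β n) + q.2 * p (P (β n)), ?_, fun _ => Iff.rfl⟩
    exact comp_eq _ _ (comp_comp s _ h.cs (comp_comp β _ h.blk.cβ (by fun_prop))) (by fun_prop)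
  · exact ⟨0, by rw [zero_mul, add_zero, add_zero]⟩
  · rintro x ⟨q, hq⟩
    rw [← add_assoc]
    by_cases hd : InDom el g (n + x)
    · obtain ⟨q1, h1⟩ := h.blk.len_dvd hL (n + x)
      obtain ⟨q2, h2⟩ := hp.dv (h.blk.pre.mono (h.blk.mono (show n ≤ n + x from le_self_add)))
      refine ⟨q + q1 * q2, ?_⟩
      rw [h.on_end hL hd, hq, h1, h2]
      ring
    · exact ⟨q, by rw [h.off_end hd, hq]⟩

end Pool.Agent.CTW
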