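import Pool.Agent.CTW.Bas

/-!
The function from words to located words.
-/

set_option autoImplicit false

namespace Pool.Agent.CTW

open RT22P RT22P.Env

variable {M : Type} [Env M] {Γ Δ : Type} [Enc M Γ] [Enc M Δ]

theorem rem_le {p : M → M} {r : M → M → M} (h : PRem p r) (L j : M) : r L j ≤ L := by
  obtain ⟨q, hq⟩ := h.rq L j
  calc r L j ≤ q * p j + r L j := le_add_self
    _ = L := hq.symm

theorem rem_self {p : M → M} {r : M → M → M} (h : PRem p r) (hlt : ∀ n, n < p n) (L : M) :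
    r L L = L := by
  obtain ⟨q, hq⟩ := h.rq L L
  rcases zero_or_succ q with rfl | ⟨y, rfl⟩
  · rw [zero_mul, zero_add] at hq
    exact hq.symm
  · exfalso
    have h1 : p L ≤ L := by
      calc p L ≤ p L + (y * p L + r L L) := le_self_add
        _ = (y + 1) * p L + r L L := by ring
        _ = L := hq.symm
    exact absurd (hlt L) (not_lt.2 h1)

theorem pos_iff_bd {p : M → M} {r : M → M → M} (h : PRem p r) (hlt : ∀ n, n < p n) {L t i : M} :
    Pos p r L t i ↔ ∃ j, j ≤ L ∧ (t < r L j ∧ (∀ j', j' < j → r L j' ≤ t) ∧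
      i + t = p j + r L j) := by
  constructor
  · rintro ⟨j, h1, h2, h3⟩
    refine ⟨j, ?_, h1, h2, h3⟩
    by_contra hc
    have h4 := h2 L (not_le.1 hc)
    rw [rem_self h hlt] at h4
    exact absurd (lt_of_lt_of_le h1 (rem_le h L j)) (not_lt.2 h4)
  · rintro ⟨j, -, h1⟩
    exact ⟨j, h1⟩

theorem comp_rem {p : M → M} {r : M → M → M} (h : PRem p r) (f g : Γ → M) (hf : Comp M f)
    (hg : Comp M g) : Comp M (fun v => r (f v) (g v)) :=
  comp_comp (fun q : M × M => r q.1 q.2) (fun v => (f v, g v)) h.cr (by fun_prop)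

theorem comp_pow {p : M → M} {r : M → M → M} (h : PRem p r) (f : Γ → M) (hf : Comp M f) :
    Comp M (fun v => p (f v)) :=
  comp_comp p f h.cp hf

theorem comp_Pos {p : M → M} {r : M → M → M} (h : PRem p r) (hlt : ∀ n, n < p n)
    (f g k : Γ → M) (hf : Comp M f) (hg : Comp M g) (hk : Comp M k) :
    Comp M (fun v => Pos p r (f v) (g v) (k v)) := by
  have e : (fun v => Pos p r (f v) (g v) (k v)) = fun v => ∃ j, j ≤ f v ∧ (g v < r (f v) j ∧
      (∀ j', j' < j → r (f v) j' ≤ g v) ∧ k v + g v = p j + r (f v) j) := by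
    funext v
    exact propext (pos_iff_bd h hlt)
  rw [e]
  refine comp_bexle f (fun v j => g v < r (f v) j ∧
      (∀ j', j' < j → r (f v) j' ≤ g v) ∧ k v + g v = p j + r (f v) j) hf ?_
  refine comp_and _ _ (comp_lt _ _ (by fun_prop) (comp_rem h _ _ (by fun_prop) (by fun_prop))) ?_
  refine comp_and _ _ ?_ (comp_eq _ _ (by fun_prop) (comp_add _ _
    (comp_pow h _ (by fun_prop)) (comp_rem h _ _ (by fun_prop) (by fun_prop))))
  refine comp_ball (fun q : Γ × M => q.2) (fun q j' => r (f q.1) j' ≤ g q.1) (by fun_prop) ?_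
  exact comp_le _ _ (comp_rem h _ _ (by fun_prop) (by fun_prop)) (by fun_prop)

theorem thm_Lam (hP : St_Pos) : St_Lam := by
  intro M _ p r h
  obtain ⟨hlt, hex, hun, hinj, -, -⟩ := hP M p r h
  obtain ⟨len, hlen, hlen'⟩ := exists_len M
  obtain ⟨F, hF, hF'⟩ := exists_pf (M := M) (Γ := M)
    (R := fun e i u => ∃ t, t < e ∧ (Val el e t u ∧ Pos p r (len e) t i))
    (b := fun e => p (len e) + p (len e) + 1) (k := fun e => e) (by
      refine comp_bex (fun q : (M × M) × M => q.1.1)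
        (fun q t => Val el q.1.1 t q.2 ∧ Pos p r (len q.1.1) t q.1.2) (by fun_prop) ?_
      exact comp_and _ _ (by fun_prop) (comp_Pos h hlt _ _ _ (by fun_prop) (by fun_prop)
        (by fun_prop)))
    (by
      have h1 : Comp M (fun e : M => p (len e)) := comp_pow h _ hlen
      exact comp_add _ _ (comp_add _ _ h1 h1) (comp_const 1)) comp_id
  have key : ∀ k L e, Word el k L e → ∀ i u, Val el (F e) i u ↔
      ∃ t, Val el e t u ∧ Pos p r L t i := by
    intro k L e he i u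
    have hL := hlen' k L e he
    rw [(hF' e).2 i u]
    constructor
    · rintro ⟨-, -, t, -, h2, h3⟩
      rw [hL] at h3
      exact ⟨t, h2, h3⟩
    · rintro ⟨t, h2, h3⟩
      refine ⟨?_, (val_lt h2).2, t, (val_lt h2).1, h2, ?_⟩
      · obtain ⟨i', h4, h5⟩ := hex L t ((he.2 t).1 ⟨u, h2⟩)
        rw [hun L t i i' h3 h5, hL]
        exact lt_succ.2 h4
      · rw [hL]
        exact h3
  refine ⟨F, hF, fun k L e he => ⟨?_, key k L e he⟩⟩
  refine ⟨fun x hx => ?_, fun i u v hu hv => ?_, ?_⟩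
  · obtain ⟨i, u, rfl, -⟩ := (hF' e).1 x hx
    obtain ⟨t, h2, -⟩ := (key k L e he i u).1 hx
    exact ⟨i, u, rfl, loc_val_lt he.1 h2⟩
  · obtain ⟨t, h2, h3⟩ := (key k L e he i u).1 hu
    obtain ⟨t', h4, h5⟩ := (key k L e he i v).1 hv
    have h6 := hinj L t t' i h3 h5
    subst h6
    exact he.1.fn _ _ _ h2 h4
  · obtain ⟨t, u, h2⟩ := he.1.ne
    obtain ⟨i, -, h3⟩ := hex L t ((he.2 t).1 ⟨u, h2⟩)
    exact ⟨i, u, (key k L e he i u).2 ⟨t, h2, h3⟩⟩

end Pool.Agent.CTW
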