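import Pool.Agent.CTW.Defs
import Pool.Agent.RTP.ASeq
import Pool.Agent.RTP.AInf
import Pool.Agent.RTP.DRaw
import Pool.Agent.RTP.Chain

/-!
Project CTW (MP_2ae72d_lc): over `RCA_0`, Carlson's theorem for words and Carlson's theorem for located words
are equivalent, for every alphabet and every number of colours (`CT S k c ↔ CTloc S k c`).
This file: the statements of the modules, with complete proofs in the docstrings.

Framework: `Pool/Agent/RTP` (namespace `RT22P`): `Env M` is a model of `RCA_0` (ordered semiring `M`) with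
finite sets coded by numbers (`el x a`: `x` belongs to the set with code `a`), `Comp M f`: the function or
predicate `f` is computable in the model (solved by `fun_prop`), `Sig M P`: `Sigma_1`.  Tools: `cind`, `sind`,
`csind`, `leastC`, `search`, `search_min`, `comp_ite`, `comp_of_graph`, `prec`, `iter`, `iterS`,
`exists_tsub`, `comp_code`, `exists_code`, `fext`, `card_le_of_inj`, `card_ivl`, ...
-/

set_option autoImplicit false

namespace Pool.Agent.CTW

open RT22P RT22P.Env

/-- `p n = 2 ^ n`, `r L j = L mod 2 ^ j`. -/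
structure PRem {M : Type} [Env M] (p : M → M) (r : M → M → M) : Prop where
  cp : Comp M p
  cr : Comp M (fun q : M × M => r q.1 q.2)
  p0 : p 0 = 1
  ps : ∀ n, p (n + 1) = p n + p n
  rlt : ∀ L j, r L j < p j
  rq : ∀ L j, ∃ q, L = q * p j + r L j

/-- The position `i` of the letter number `t` of a word of length `L`: if `j` is least with
`t < L mod 2 ^ j`, then `i = 2 ^ j + (L mod 2 ^ j) - t`. -/
def Pos {M : Type} [Env M] (p : M → M) (r : M → M → M) (L t i : M) : Prop :=
  ∃ j, t < r L j ∧ (∀ j', j' < j → r L j' ≤ t) ∧ i + t = p j + r L j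

/-- DIG.  Binary digits give an environment.  Proof: copy `Pool/Agent/RTP/BPow.lean`
(there `bpow_el p x a` is `∃ q ≤ a, ∃ r ≤ a, a = (2 q + 1) p x + r ∧ r < p x`, which is equivalent to `Dig p x a`
since `p x ≥ 1`), with the given `p` instead of `bpow_exists_p`, `el := Dig p`, `pw := p`. -/
def St_Dig : Prop := ∀ (M : Type) [E0 : Env1 M] (p : M → M), Comp M p → p 0 = 1 →
  (∀ n, p (n + 1) = p n + p n) → ∃ E : Env M, E.toEnv1 = E0 ∧ ∀ x a : M, E.el x a ↔ Dig p x a

/-- MOD.  Proof: `p` by `iter`; existence of quotient and remainder (division by `p j > 0`) by induction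
(see `bpow_div` in `RTP/BPow.lean`), and `r` by `search_min` (the least `x` such that
`x < p j ∧ ∃ q ≤ L, L = q * p j + x`). -/
def St_Mod : Prop := ∀ (M : Type) [Env M], ∃ (p : M → M) (r : M → M → M), PRem p r

/-- POS.  Facts on positions.
Preliminaries.  `0 < p n`, `n < p n` (induction); for `m ≤ n` there is `q > 0` with `p n = q * p m`
(`n = m + x`, induction on `x`, `q ≤ p n`); so `p` is monotone, strictly, and `p (m + 1) ≤ p n` for `m < n`.
Uniqueness: `q * p j + x = q' * p j + x'`, `x, x' < p j` imply `q = q'`, `x = x'`; hence if `L = q * p j + x`,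
`x < p j` then `r L j = x`; `r L 0 = 0` (as `p 0 = 1`); `r L j = L` if `L < p j`; `r L j ≤ L`.
(A) If `a < p κ`, `b = q * p κ`, `κ ≤ j`, then `r (a + b) j = a + r b j`: `p j = m * p κ`, `b = q' * p j + r b j`,
write `r b j = x * p κ + y`, `y < p κ`; then `q * p κ = (q' * m + x) * p κ + y` so `y = 0`; as
`x * p κ < m * p κ`, `x + 1 ≤ m` and `a + x * p κ < (x + 1) * p κ ≤ p j`; `a + b = q' * p j + (a + x * p κ)`.
(B) If `j ≤ κ`, then `r (a + q * p κ) j = r a j`; in particular `r (q * p κ) j = 0`.
1. `n < p n`.
2. Existence: the least `j` with `t < r L j` (`j = L` is one, as `L < p L` and `r L L = L`), so `j ≤ L`;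
`i = p j + (r L j - t) ≤ p L + p L`.
3. Uniqueness: the least `j` is unique, then cancel.
4. Injectivity: `p j < i` since `t < r L j`; `j ≠ 0`; `i + t = p j + r L j < p j + p j = p (j + 1)`, so
`i < p (j + 1)`.  If `i` is a position of `t` and of `t'` with windows `j < j'`, then `i < p (j + 1) ≤ p j' < i`,
a contradiction; so `j = j'` and `t = t'` by cancellation.
5. Windows: if `b = q * p κ`, then `r b j = 0 ≤ t` for `j ≤ κ`, so the window `j` is `> κ`; if `b < p κ'`, then
`r b κ' = b ≥ r b j > t`, so `j ≤ κ'` by leastness.  Then `p (κ + 1) ≤ p j < i < p (j + 1) ≤ p (κ' + 1)`.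
6. Additivity: `t < b` so `q > 0`, `p κ ≤ b < p κ'`, so `κ < κ'`.  Put `L = a + b + c`.  For `j ≤ κ`:
`r L j = r a j ≤ a ≤ a + t`, and `r b j = 0 ≤ t`.  For `κ < j ≤ κ'`: `r L j = r (a + b) j = a + r b j` (B, A).
So for `j ≤ κ'`: `a + t < r L j ↔ t < r b j`; `j = κ'` satisfies this as `r b κ' = b`.  Hence the least `j` for
`(L, a + t)` and the least `j` for `(b, t)` are the same, `κ < j ≤ κ'`, and
`i + (a + t) = p j + r L j ↔ i + t = p j + r b j`. -/
def St_Pos : Prop := ∀ (M : Type) [Env M] (p : M → M) (r : M → M → M), PRem p r →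
  (∀ n, n < p n) ∧
  (∀ L t, t < L → ∃ i, i ≤ p L + p L ∧ Pos p r L t i) ∧
  (∀ L t i i', Pos p r L t i → Pos p r L t i' → i = i') ∧
  (∀ L t t' i, Pos p r L t i → Pos p r L t' i → t = t') ∧
  (∀ κ κ' b q t i, b = q * p κ → b < p κ' → Pos p r b t i → p (κ + 1) < i ∧ i < p (κ' + 1)) ∧
  (∀ a b c κ κ' q q' t i, a < p κ → b = q * p κ → b < p κ' → c = q' * p κ' → t < b →
    (Pos p r (a + b + c) (a + t) i ↔ Pos p r b t i))

/-- BLK.  Blocks of consecutive words.  Proof: `P` by `iter`; `P` is strictly increasing.  For every `β` there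
are `α`, `β'` with `β ≤ α < β'` and `P β' = P α + q * p (P β)`: put `N = p (P β) > 0` and
`h i = r (P (β + i)) (P β) < N` for `i ≤ N`; by `card_le_of_inj` and `card_ivl` the function `h` is not injective
on `[0, N]`, so there are `i < j ≤ N` with `h i = h j`; `α = β + i`, `β' = β + j`; from
`P (β + i) = q1 * N + x`, `P (β + j) = q2 * N + x`, `P (β + i) ≤ P (β + j)` get `q1 ≤ q2`, `q = q2 - q1`.
Such a pair is found by `search` (the condition is computable, `q ≤ P β'`), `G : M → M × M`;
`β 0 = 0`, `β (n + 1) = (G (β n)).2` by `iter`, `α n = (G (β n)).1`. -/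
def St_Blk : Prop := ∀ (M : Type) [Env M] (p : M → M) (r : M → M → M), PRem p r →
  ∀ l : M → M, Comp M l → (∀ n, 0 < l n) → ∃ P α β : M → M, Comp M P ∧ Comp M α ∧ Comp M β ∧
    P 0 = 0 ∧ (∀ m, P (m + 1) = P m + l m) ∧ β 0 = 0 ∧
    ∀ n, β n ≤ α n ∧ α n < β (n + 1) ∧ ∃ q, P (β (n + 1)) = P (α n) + q * p (P (β n))

/-- LAM.  The function `Λ`: word of length `L` to located word, letter number `t` at position `i`,
`Pos p r L t i`. -/
def St_Lam : Prop := ∀ (M : Type) [Env M] (p : M → M) (r : M → M → M), PRem p r →
  ∃ Λ : M → M, Comp M Λ ∧ ∀ k L e, Word el k L e → LocWord el k (Λ e) ∧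
    ∀ i u, Val el (Λ e) i u ↔ ∃ t, Val el e t u ∧ Pos p r L t i

/-- CAT.  Concatenation exists.  Proof.  `s` by `iter` and `comp_ite` (`InDom` is computable).  `s` is monotone;
`i < g` for `i` in the domain of `g` (`val_lt`), so `s N = s g` for `N ≥ g`.  `W` by `exists_pf` (module `Bas`)
with the bounds `i < s g`, `u < k` and the relation of the statement (bounded: `n, b < g`, `t ≤ j`).
If the right side holds, then `t < l n` (`Word (k + 1) (l n) (y n)`), `j < s n + l n = s (n + 1) ≤ s g`, and `u < k`
(`b < k` as `g` is a located word over `k` letters).  The intervals `[s n, s (n + 1))`, `n` in the domain of `g`,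
are disjoint and cover `[0, s g)` (for `j < s g` take the least `n` with `j < s (n + 1)`); for
`s n ≤ j < s (n + 1)` the letter of `y n` number `j - s n` is unique, so the value of `W` at `j` exists and is
unique.  Nonempty: `g` has a nonempty domain, `l n > 0`. -/
def St_Cat : Prop := ∀ (M : Type) [Env M] (k : M) (y l : M → M), Comp M y → Comp M l →
  (∀ n, Word el (k + 1) (l n) (y n)) → ∀ g, LocWord el k g →
  ∃ (W : M) (s : M → M), Comp M s ∧ s 0 = 0 ∧
    (∀ n, (InDom el g n → s (n + 1) = s n + l n) ∧ (¬ InDom el g n → s (n + 1) = s n)) ∧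
    (∀ j u, Val el W j u ↔ ∃ n b t, Val el g n b ∧ j = s n + t ∧ SubVal el k (y n) b t u) ∧
    Word el k (s g) W ∧ ∀ N, g ≤ N → s N = s g

/-- BCK.  Located words give words.
Proof.  Let `cnt e i` be the number of elements of the domain of `e` below `i`: `cnt e 0 = 0`,
`cnt e (i + 1) = cnt e i + 1` if `InDom el e i`, `cnt e i` otherwise (`prec`, computable in `(e, i)`).  `cnt e` is
monotone, and constant from `e` on (the elements of the domain are `< e`).  Let `om e` be the word
`Val (om e) t u ↔ ∃ i, Val e i u ∧ cnt e i = t` (`exists_pf` with `t < cnt e e`, `u < e`, `i < e`).  If `e` is a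
located word over `k` letters, then `om e` is a word of length `cnt e e` over `k` letters: `cnt e i < cnt e (i + 1) ≤
cnt e e` for `i` in the domain, so `i` is determined by `cnt e i` on the domain; for `t < cnt e e` the least `x` with
`t < cnt e x` is `i + 1` with `i` in the domain and `cnt e i = t`.
Given `f` for words, let `F e = f (om e)` and apply the hypothesis: `y`, `d`.  Put `y' n = om (y n)`,
`l n = cnt (y n) (y n)`; `y' n` is a variable word of length `l n`.
Let `g`, `W` with `InWord S el k y' l g W` (`s` the function of the definition, `L` the length).  Let `W'` be the code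
of the located word `i ↦ u`, where `∃ n b, Val g n b ∧ SubVal k (y n) b i u` (bounded comprehension: for each `n`
the elements of the domain of `y n` are `< y n`; take the bound `y 0 + ... + y g`, by `iter`; or use
`exists_codeS` for the class `{pr i u}` with a bound from `sbd`).  The domains of the `y n` are disjoint, so `W'` is a
located word over `k` letters (nonempty since `g` is), `InLoc el k y g W'`, and so `F W' = f (om W') = d`.
It remains to prove `om W' = W` (`loc_ext`).  Let `H n` be the least element of the domain of `y n` (`search_min`).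
By the block property `i < H (n + 1)` for `i` in the domain of `y n`, and for `m < n` the elements of the domain of
`y m` are `< H n`.  So for `H n ≤ i < H (n + 1)`: `i` is in the domain of `W'` iff `n` is in the domain of `g` and `i` is in the
domain of `y n`; and no `i < H 0` is in the domain of `W'`.  Induction on `i` (for fixed `n`): for
`H n ≤ i ≤ H (n + 1)`, `cnt W' i = cnt W' (H n) + (cnt (y n) i if n in the domain of g, 0 if not)`
(`cnt (y n) (H n) = 0`).  Since `cnt (y n) (H (n + 1)) = cnt (y n) (y n) = l n`, induction on `n` gives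
`cnt W' (H n) = s n`.  So for `i` in the domain of `y n`, `n` in the domain of `g`: `cnt W' i = s n + cnt (y n) i`.
Hence `Val (om W') t u ↔ ∃ i, Val W' i u ∧ cnt W' i = t ↔ ∃ i n b, Val g n b ∧ SubVal k (y n) b i u ∧
s n + cnt (y n) i = t ↔ ∃ n b t', Val g n b ∧ t = s n + t' ∧ SubVal k (y' n) b t' u ↔ Val W t u`. -/
def St_Bck : Prop := ∀ (M : Type) [Env M] (k c : M),
  CTlocE (Arith.S (M := M)) el k c → CTE (Arith.S (M := M)) el k c

/-- FWD.  Words give located words. -/
def St_Fwd : Prop := ∀ (M : Type) [Env M] (k c : M),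
  CTE (Arith.S (M := M)) el k c → CTlocE (Arith.S (M := M)) el k c

end Pool.Agent.CTW
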